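import Pool.Agent.Run7.h870.PQ.Ga

/-!
# Many distances for the same constant term
-/

set_option autoImplicit false
set_option linter.all false

namespace Run7.h870.PQ

open Finset Filter Polynomial
open Pool.Agent.H646 (rat)
open Pool.Agent.H646.TuplesM (rat_ge_one rat_nonneg)
open Pool.Agent.H646.MomentM (rat_moment)
open scoped Classical

/-- the number of the consecutive prime values at the distance `h` -/
noncomputable def cg (F : ℤ[X]) (K h a : ℕ) : ℕ :=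
  ((Icc 1 K).filter fun n : ℕ => (((a : ℤ) + F.eval (n : ℤ)).toNat.Prime ∧ ((a : ℤ) + F.eval ((n + h : ℕ) : ℤ)).toNat.Prime) ∧
    ∀ j : ℕ, 0 < j → j < h → ¬ ((a : ℤ) + F.eval ((n + j : ℕ) : ℤ)).toNat.Prime).card

/-- the double counting -/
theorem dbl (X : ℕ) (hX : 1 ≤ X) (S : Finset ℕ) (hS : 1 ≤ S.card) (P : ℕ → ℕ → Prop) (c : ℝ) (hc : 0 < c)
    (h : ∀ s ∈ S, c * X ≤ (((Icc 1 X).filter fun a => P s a).card : ℝ)) :
    c / 2 * X ≤ (((Icc 1 X).filter fun a => c / 2 * S.card ≤ ((S.filter fun s => P s a).card : ℝ)).card : ℝ) := by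
  have hS0 : (0 : ℝ) < S.card := by exact_mod_cast (by omega : 0 < S.card)
  have hX0 : (0 : ℝ) < X := by exact_mod_cast (by omega : 0 < X)
  have h1 : c * X * S.card ≤ ∑ s ∈ S, (((Icc 1 X).filter fun a => P s a).card : ℝ) := by
    calc c * X * S.card = ∑ s ∈ S, c * X := by rw [sum_const, nsmul_eq_mul]; ring
      _ ≤ _ := sum_le_sum h
  have h2 : ∑ s ∈ S, (((Icc 1 X).filter fun a => P s a).card : ℝ) = ∑ a ∈ Icc 1 X, ((S.filter fun s => P s a).card : ℝ) := by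
    have e1 : ∀ s ∈ S, (((Icc 1 X).filter fun a => P s a).card : ℝ) = ∑ a ∈ Icc 1 X, (if P s a then (1 : ℝ) else 0) := by
      intro s _
      rw [sum_boole]
    rw [sum_congr rfl e1, sum_comm]
    refine sum_congr rfl fun a _ => ?_
    rw [sum_boole]
  rw [h2] at h1
  obtain ⟨g, hg⟩ : ∃ g : ℕ → ℝ, g = fun a => ((S.filter fun s => P s a).card : ℝ) := ⟨_, rfl⟩
  have h3 : c * X * S.card ≤ ∑ a ∈ Icc 1 X, g a := by rw [hg]; exact h1
  have hgS : ∀ a, g a ≤ S.card := fun a => by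
    rw [hg]
    show ((S.filter fun s => P s a).card : ℝ) ≤ S.card
    have h8 := card_filter_le S (fun s => P s a)
    exact_mod_cast h8
  have h4 : c / 2 * X ≤ (((Icc 1 X).filter fun a => c / 2 * S.card ≤ g a).card : ℝ) := by
    have h5 := sum_filter_add_sum_filter_not (Icc 1 X) (fun a => c / 2 * S.card ≤ g a) g
    have h6 : ∑ a ∈ (Icc 1 X).filter (fun a => c / 2 * S.card ≤ g a), g a ≤
        (((Icc 1 X).filter fun a => c / 2 * S.card ≤ g a).card : ℝ) * S.card := by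
      calc ∑ a ∈ (Icc 1 X).filter (fun a => c / 2 * S.card ≤ g a), g a ≤ ∑ a ∈ (Icc 1 X).filter (fun a => c / 2 * S.card ≤ g a), (S.card : ℝ) :=
            sum_le_sum fun a _ => hgS a
        _ = _ := by rw [sum_const, nsmul_eq_mul]
    have h7 : ∑ a ∈ (Icc 1 X).filter (fun a => ¬ c / 2 * S.card ≤ g a), g a ≤ X * (c / 2 * S.card) := by
      calc ∑ a ∈ (Icc 1 X).filter (fun a => ¬ c / 2 * S.card ≤ g a), g a ≤ ∑ a ∈ (Icc 1 X).filter (fun a => ¬ c / 2 * S.card ≤ g a), (c / 2 * S.card) :=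
            sum_le_sum fun a ha => (not_le.1 (mem_filter.1 ha).2).le
        _ = (((Icc 1 X).filter fun a => ¬ c / 2 * S.card ≤ g a).card : ℝ) * (c / 2 * S.card) := by rw [sum_const, nsmul_eq_mul]
        _ ≤ _ := by
            apply mul_le_mul_of_nonneg_right _ (by positivity)
            have h8 := card_filter_le (Icc 1 X) (fun a => ¬ c / 2 * S.card ≤ g a)
            rw [Nat.card_Icc] at h8
            exact_mod_cast (by omega : ((Icc 1 X).filter (fun a => ¬ c / 2 * S.card ≤ g a)).card ≤ X)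
    have h8 : c / 2 * X * S.card ≤ (((Icc 1 X).filter fun a => c / 2 * S.card ≤ g a).card : ℝ) * S.card := by
      have e : c * X * S.card = c / 2 * X * S.card + X * (c / 2 * S.card) := by ring
      linarith
    exact le_of_mul_le_mul_right h8 hS0
  rw [hg] at h4
  exact h4

/-- many distances -/
theorem dist (T C₁ : ℝ) (hC₁ : 0 < C₁) (hT : 8 * C₁ ≤ T) (hmom : ∀ N : ℕ, ∑ n ∈ Icc 1 N, rat n ^ 1 ≤ C₁ * N) (H : ℕ) (hH : 4 ≤ H) :
    (H : ℝ) / 4 ≤ (((Icc 1 H).filter fun h => 2 ∣ h ∧ rat h ≤ T).card : ℝ) := by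
  have hT0 : 0 < T := by linarith
  have hHr : (4 : ℝ) ≤ H := by exact_mod_cast hH
  have h1 : (H : ℝ) / 2 - 1 / 2 ≤ (((Icc 1 H).filter fun h => 2 ∣ h).card : ℝ) := by
    have h2 : (range (H / 2)).card ≤ ((Icc 1 H).filter fun h => 2 ∣ h).card := by
      apply card_le_card_of_injOn (fun i => 2 * (i + 1))
      · intro i hi
        rw [mem_coe, mem_range] at hi
        rw [mem_coe, mem_filter, mem_Icc]
        refine ⟨⟨?_, ?_⟩, ?_⟩
        · show 1 ≤ 2 * (i + 1)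
          omega
        · show 2 * (i + 1) ≤ H
          omega
        · exact dvd_mul_right _ _
      · intro a _ b _ hab
        have hab' : 2 * (a + 1) = 2 * (b + 1) := hab
        omega
    rw [card_range] at h2
    have h3 : H ≤ 2 * ((Icc 1 H).filter fun h => 2 ∣ h).card + 1 := by omega
    have h4 : (H : ℝ) ≤ 2 * (((Icc 1 H).filter fun h => 2 ∣ h).card : ℝ) + 1 := by exact_mod_cast h3
    linarith
  have h2 : (((Icc 1 H).filter fun h => ¬ rat h ≤ T).card : ℝ) ≤ H / 8 := by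
    have h3 : T * (((Icc 1 H).filter fun h => ¬ rat h ≤ T).card : ℝ) ≤ C₁ * H := by
      calc T * (((Icc 1 H).filter fun h => ¬ rat h ≤ T).card : ℝ) = ∑ h ∈ (Icc 1 H).filter (fun h => ¬ rat h ≤ T), T := by
            rw [sum_const, nsmul_eq_mul, mul_comm]
        _ ≤ ∑ h ∈ (Icc 1 H).filter (fun h => ¬ rat h ≤ T), rat h ^ 1 := by
            refine sum_le_sum fun h hh => ?_
            rw [pow_one]
            exact (not_le.1 (mem_filter.1 hh).2).le
        _ ≤ ∑ h ∈ Icc 1 H, rat h ^ 1 := sum_le_sum_of_subset_of_nonneg (filter_subset _ _) fun _ _ _ => pow_nonneg (rat_nonneg _) _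
        _ ≤ _ := hmom H
    have hH0 : (0 : ℝ) < H := by linarith
    have h4 : 8 * C₁ * (((Icc 1 H).filter fun h => ¬ rat h ≤ T).card : ℝ) ≤ C₁ * H := by
      refine le_trans ?_ h3
      exact mul_le_mul_of_nonneg_right hT (Nat.cast_nonneg _)
    have h5 : C₁ * (8 * (((Icc 1 H).filter fun h => ¬ rat h ≤ T).card : ℝ)) ≤ C₁ * H := by linarith
    have h6 := le_of_mul_le_mul_left h5 hC₁
    linarith
  have h3 : ((Icc 1 H).filter fun h => 2 ∣ h).card ≤ ((Icc 1 H).filter fun h => 2 ∣ h ∧ rat h ≤ T).card +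
      ((Icc 1 H).filter fun h => ¬ rat h ≤ T).card := by
    refine le_trans (card_le_card ?_) (card_union_le _ _)
    intro h hh
    rw [mem_filter] at hh
    rw [mem_union, mem_filter, mem_filter]
    by_cases h4 : rat h ≤ T
    · left
      exact ⟨hh.1, hh.2, h4⟩
    · right
      exact ⟨hh.1, h4⟩
  have h4 : (((Icc 1 H).filter fun h => 2 ∣ h).card : ℝ) ≤ (((Icc 1 H).filter fun h => 2 ∣ h ∧ rat h ≤ T).card : ℝ) +
      (((Icc 1 H).filter fun h => ¬ rat h ≤ T).card : ℝ) := by exact_mod_cast h3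
  linarith

/-- **many distances for the same constant term** -/
theorem many (F : ℤ[X]) (hD : 2 ≤ F.natDegree) (hl : 1 ≤ F.leadingCoeff) : ∃ c : ℝ, 0 < c ∧ ∃ C X₀ : ℕ,
    ∀ X K : ℕ, X₀ ≤ X → (X : ℝ) ^ (1 / 3 : ℝ) * Real.log X ^ C ≤ (K : ℝ) ^ (F.natDegree - 1) → (K : ℝ) ^ F.natDegree ≤ c * X →
      c * X ≤ (((Icc 1 X).filter fun a : ℕ => c * Real.log X ≤ (((Icc 1 ⌊Real.log X⌋₊).filter fun h : ℕ =>
        c * K / Real.log X ^ 2 ≤ (cg F K h a : ℝ)).card : ℝ)).card : ℝ) := by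
  obtain ⟨C₁, hC₁, hmom⟩ := rat_moment 1
  obtain ⟨c, hc, C, X₀, hgap⟩ := gaps F hD hl (8 * C₁ + 1) (by linarith)
  have hev : ∀ᶠ Y : ℕ in atTop, 8 / min c 1 ≤ Real.log Y :=
    (tendsto_natCast_atTop_atTop (R := ℝ)).eventually (Real.tendsto_log_atTop.eventually_ge_atTop _)
  obtain ⟨X₁, hX₁⟩ := eventually_atTop.1 hev
  obtain ⟨b, hb⟩ : ∃ b, b = min c 1 := ⟨_, rfl⟩
  have hb0 : 0 < b := by rw [hb]; positivity
  have hbc : b ≤ c := by rw [hb]; exact min_le_left _ _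
  have hb1 : b ≤ 1 := by rw [hb]; exact min_le_right _ _
  have hbb : b ^ 2 / 16 ≤ b / 16 := by
    have : b ^ 2 ≤ b := by nlinarith
    linarith
  refine ⟨b ^ 2 / 16, by positivity, C, X₀ + X₁ + 3, ?_⟩
  intro X K hX hK hKD
  have hX0 : (0 : ℝ) < X := by exact_mod_cast (by omega : 0 < X)
  have hL := hX₁ X (by omega)
  rw [← hb, div_le_iff₀ hb0] at hL
  have hL8 : 8 ≤ Real.log X := by nlinarith
  obtain ⟨H, hH⟩ : ∃ H, H = ⌊b * Real.log X⌋₊ := ⟨_, rfl⟩
  have hbL : 0 ≤ b * Real.log X := by positivity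
  have hH1 : (H : ℝ) ≤ b * Real.log X := by rw [hH]; exact Nat.floor_le hbL
  have hH2 : b * Real.log X - 1 < H := by rw [hH]; exact Nat.sub_one_lt_floor _
  have hH4 : 4 ≤ H := by
    have : (4 : ℝ) < H + 1 := by linarith
    have h5 : 4 < H + 1 := by exact_mod_cast this
    omega
  have hd := dist (8 * C₁ + 1) C₁ hC₁ (by linarith) hmom H hH4
  obtain ⟨S, hS⟩ : ∃ S, S = (Icc 1 H).filter fun h => 2 ∣ h ∧ rat h ≤ 8 * C₁ + 1 := ⟨_, rfl⟩
  rw [← hS] at hd
  have hHr : (4 : ℝ) ≤ H := by exact_mod_cast hH4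
  have hS1 : 1 ≤ S.card := by
    have : (1 : ℝ) ≤ S.card := by linarith
    exact_mod_cast this
  have hlog0 : 0 < Real.log X := by linarith
  have hK2 : (0 : ℝ) ≤ K / Real.log X ^ 2 := by positivity
  have h1 := dbl X (by omega) S hS1 (fun h a => c * K / Real.log X ^ 2 ≤ (cg F K h a : ℝ)) c hc (by
    intro h hh
    rw [hS, mem_filter, mem_Icc] at hh
    obtain ⟨⟨a1, a2⟩, a3, a4⟩ := hh
    have a5 : (h : ℝ) ≤ H := by exact_mod_cast a2
    have h2 := hgap X K h (by omega) hK (hKD.trans (by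
      apply mul_le_mul_of_nonneg_right _ hX0.le
      linarith)) a1 (by nlinarith) a4 ⟨0, by
        have h3 : (0 + (h : ℤ)) - 0 ∣ F.eval (0 + (h : ℤ)) - F.eval 0 := Polynomial.sub_dvd_eval_sub _ _ _
        have h4 : (2 : ℤ) ∣ (0 + (h : ℤ)) - 0 := by omega
        exact h4.trans h3⟩
    exact h2)
  have h3 : b ^ 2 / 16 * X ≤ c / 2 * X := by
    apply mul_le_mul_of_nonneg_right _ hX0.le
    linarith
  refine h3.trans (h1.trans ?_)
  rw [Nat.cast_le]
  apply card_le_card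
  intro a ha
  rw [mem_filter] at ha ⊢
  refine ⟨ha.1, ?_⟩
  have h4 : b ^ 2 / 16 * Real.log X ≤ c / 2 * S.card := by
    have h5 : b / 2 * Real.log X ≤ H := by linarith
    calc b ^ 2 / 16 * Real.log X = b / 2 * ((b / 2 * Real.log X) / 4) := by ring
      _ ≤ b / 2 * (H / 4) := by gcongr
      _ ≤ c / 2 * S.card := by gcongr
  refine h4.trans (ha.2.trans ?_)
  rw [Nat.cast_le]
  apply card_le_card
  intro h hh
  rw [mem_filter] at hh ⊢
  have h5 := hh.1
  rw [hS, mem_filter, mem_Icc] at h5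
  refine ⟨?_, ?_⟩
  · rw [mem_Icc]
    refine ⟨h5.1.1, ?_⟩
    apply Nat.le_floor
    have h6 : (h : ℝ) ≤ H := by exact_mod_cast h5.1.2
    nlinarith
  · refine le_trans ?_ hh.2
    rw [mul_div_assoc, mul_div_assoc]
    apply mul_le_mul_of_nonneg_right _ hK2
    linarith

/-- **pairs of primes**, the general case -/
theorem pairs (F₁ F₂ : ℤ[X]) (h1 : 1 ≤ F₁.natDegree) (h2 : 1 ≤ F₂.natDegree) (hd : 1 ≤ (F₂ - F₁).natDegree)
    (hp : ∃ n : ℤ, 2 ∣ F₂.eval n - F₁.eval n) :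
    ∃ c : ℝ, 0 < c ∧ ∃ C X₀ : ℕ, ∀ X K : ℕ, X₀ ≤ X → (X : ℝ) ^ (1 / 3 : ℝ) * Real.log X ^ C ≤ (K : ℝ) ^ (F₂ - F₁).natDegree →
      (K : ℝ) ^ (max F₁.natDegree F₂.natDegree) ≤ c * X → c * X ≤ (((Icc 1 X).filter fun a : ℕ => c * K / Real.log X ^ 2 ≤
        (((Icc 1 K).filter fun n : ℕ => ((a : ℤ) + F₁.eval (n : ℤ)).toNat.Prime ∧
          ((a : ℤ) + F₂.eval (n : ℤ)).toNat.Prime).card : ℝ)).card : ℝ) := by
  have h0 : (F₂ - F₁).leadingCoeff ≠ 0 := by
    rw [Ne, leadingCoeff_eq_zero]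
    intro h
    rw [h, natDegree_zero] at hd
    omega
  rcases lt_or_gt_of_ne h0 with hl | hl
  · have e : F₁ - F₂ = -(F₂ - F₁) := by ring
    have hl' : 1 ≤ (F₁ - F₂).leadingCoeff := by
      rw [e, leadingCoeff_neg]
      omega
    have hd' : (F₁ - F₂).natDegree = (F₂ - F₁).natDegree := by rw [e, natDegree_neg]
    obtain ⟨c, hc, C, X₀, h⟩ := pairs_pos F₂ F₁ h2 h1 (by omega) hl' (by
      obtain ⟨n, hn⟩ := hp
      refine ⟨n, ?_⟩
      rw [eval_sub]
      have : F₁.eval n - F₂.eval n = -(F₂.eval n - F₁.eval n) := by ring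
      rw [this]
      exact (dvd_neg).2 hn) (max F₁.natDegree F₂.natDegree) (le_max_right _ _) (le_max_left _ _)
    refine ⟨c, hc, C, X₀, fun X K hX hK hKD => ?_⟩
    refine (h X K hX (by rw [hd']; exact hK) hKD).trans (le_of_eq ?_)
    congr 1
    congr 1
    apply filter_congr
    intro a _
    have e2 : ((Icc 1 K).filter fun n : ℕ => ((a : ℤ) + F₂.eval (n : ℤ)).toNat.Prime ∧ ((a : ℤ) + F₁.eval (n : ℤ)).toNat.Prime) =
        ((Icc 1 K).filter fun n : ℕ => ((a : ℤ) + F₁.eval (n : ℤ)).toNat.Prime ∧ ((a : ℤ) + F₂.eval (n : ℤ)).toNat.Prime) := by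
      apply filter_congr
      intro n _
      exact and_comm
    rw [e2]
  · exact pairs_pos F₁ F₂ h1 h2 hd (by omega) (by
      obtain ⟨n, hn⟩ := hp
      refine ⟨n, ?_⟩
      rw [eval_sub]
      exact hn) _ (le_max_left _ _) (le_max_right _ _)

end Run7.h870.PQ
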