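import Pool.Agent.Run7.h870.PQ.Up

/-!
# The second moment of the number of pairs of primes
-/

set_option autoImplicit false
set_option linter.all false

namespace Run7.h870.PQ

open Finset Filter Polynomial
open Pool.Agent.H646 (rat)
open Pool.Agent.H646.TuplesM (tuple_bound rat_ge_one rat_nonneg prod_le_sum_pow)
open scoped Classical

/-- the function of the difference -/
noncomputable def R (B : ℕ) (s t : ℤ) : ℝ := rat (t - s).natAbs ^ B

theorem R_comm (B : ℕ) (s t : ℤ) : R B s t = R B t s := by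
  unfold R
  rw [← Int.natAbs_neg, neg_sub]

theorem R_nonneg (B : ℕ) (s t : ℤ) : 0 ≤ R B s t := pow_nonneg (rat_nonneg _) _

theorem R_mono {B B' : ℕ} (h : B ≤ B') {s t : ℤ} (hst : s ≠ t) : R B s t ≤ R B' s t := by
  unfold R
  apply pow_le_pow_right₀ _ h
  apply rat_ge_one
  have : t - s ≠ 0 := sub_ne_zero.2 (Ne.symm hst)
  have := Int.natAbs_pos.2 this
  omega

theorem ps2 (B : ℕ) (a b : ℤ) : ps B ![a, b] = 2 * R B a b := by
  have e : ps B ![a, b] = R B a b + R B b a := by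
    unfold ps R
    simp [Fin.sum_univ_two]
  rw [e, R_comm B b a]
  ring

theorem ps4 (B : ℕ) (a b c d : ℤ) :
    ps B ![a, b, c, d] = 2 * (R B a b + R B a c + R B a d + R B b c + R B b d + R B c d) := by
  have e : ps B ![a, b, c, d] = (R B a b + R B a c + R B a d) + (R B b a + R B b c + R B b d) +
      (R B c a + R B c b + R B c d) + (R B d a + R B d b + R B d c) := by
    unfold ps R
    simp [Fin.sum_univ_four]
  rw [e, R_comm B b a, R_comm B c a, R_comm B c b, R_comm B d a, R_comm B d b, R_comm B d c]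
  ring

theorem inj2 {a b : ℤ} (h : a ≠ b) : Function.Injective ![a, b] := by
  intro i j hij
  fin_cases i <;> fin_cases j <;> simp_all

theorem inj4 {a b c d : ℤ} (h1 : a ≠ b) (h2 : a ≠ c) (h3 : a ≠ d) (h4 : b ≠ c) (h5 : b ≠ d) (h6 : c ≠ d) :
    Function.Injective ![a, b, c, d] := by
  intro i j hij
  fin_cases i <;> fin_cases j <;> simp_all

/-- the arguments -/
noncomputable def NN (F₁ F₂ : ℤ[X]) (K : ℕ) : Finset ℕ := (Icc 1 K).filter fun n : ℕ => F₁.eval (n : ℤ) ≠ F₂.eval (n : ℤ)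

/-- the number of the pairs of primes -/
noncomputable def pr (F₁ F₂ : ℤ[X]) (K a : ℕ) : ℕ :=
  ((NN F₁ F₂ K).filter fun n : ℕ => ((a : ℤ) + F₁.eval (n : ℤ)).toNat.Prime ∧ ((a : ℤ) + F₂.eval (n : ℤ)).toNat.Prime).card

/-- the conditions on the polynomials -/
def Ok (D Λ : ℕ) (x K : ℕ) (F : ℤ[X]) : Prop :=
  1 ≤ F.natDegree ∧ F.natDegree ≤ D ∧ F.leadingCoeff.natAbs ≤ Λ ∧ ∀ n ∈ Icc 1 K, |F.eval ((n : ℕ) : ℤ)| ≤ x

theorem sub_C_facts (F : ℤ[X]) (hF : 1 ≤ F.natDegree) (c : ℤ) :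
    (F - C c).natDegree = F.natDegree ∧ (F - C c).leadingCoeff = F.leadingCoeff := by
  have h1 : (F - C c).natDegree = F.natDegree := natDegree_sub_C
  refine ⟨h1, ?_⟩
  unfold leadingCoeff
  rw [h1, coeff_sub, coeff_C, if_neg (by omega), sub_zero]

theorem eq_le (F : ℤ[X]) (hF : 1 ≤ F.natDegree) (K : ℕ) (c : ℤ) :
    ((Icc 1 K).filter fun n : ℕ => F.eval (n : ℤ) = c).card ≤ F.natDegree := by
  obtain ⟨h1, h2⟩ := sub_C_facts F hF c
  have h0 : F - C c ≠ 0 := by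
    intro h
    rw [h, natDegree_zero] at h1
    omega
  have h3 : ((Icc 1 K).filter fun n : ℕ => F.eval (n : ℤ) = c).card ≤ (F - C c).roots.toFinset.card := by
    apply card_le_card_of_injOn (fun n : ℕ => (n : ℤ))
    · intro n hn
      rw [mem_coe, mem_filter] at hn
      rw [mem_coe, Multiset.mem_toFinset, mem_roots h0, IsRoot.def, eval_sub, eval_C]
      linarith [hn.2]
    · intro a _ b _ hab
      have hab' : (a : ℤ) = (b : ℤ) := hab
      exact_mod_cast hab'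
  exact h3.trans ((Multiset.toFinset_card_le _).trans ((card_roots' _).trans h1.le))

/-- **the second moment** -/
theorem second (D Λ : ℕ) : ∃ B : ℕ, ∀ M : ℝ, 0 ≤ M → ∃ C : ℝ, 0 < C ∧ ∃ x₀ : ℕ, ∀ x : ℕ, x₀ ≤ x → ∀ K : ℕ,
    3 ≤ K → Real.log x ^ 2 ≤ K → 2 * (x : ℝ) ≤ Real.exp K → ∀ F₁ F₂ : ℤ[X], Ok D Λ x K F₁ → Ok D Λ x K F₂ →
    ∑ n ∈ NN F₁ F₂ K, R B (F₁.eval (n : ℤ)) (F₂.eval (n : ℤ)) ≤ M * K →
    ∑ a ∈ Icc 1 x, (pr F₁ F₂ K a : ℝ) ^ 2 ≤ C * (x * (K : ℝ) ^ 2 / Real.log x ^ 4) := by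
  obtain ⟨C4, hC4, B4, x4, h4⟩ := up_inj 4 (by norm_num)
  obtain ⟨C2, hC2, B2, x2, h2⟩ := up_inj 2 (by norm_num)
  obtain ⟨B, hB⟩ : ∃ B, B = B4 + B2 := ⟨_, rfl⟩
  obtain ⟨Cv, hCv, hav⟩ := avg D Λ B
  refine ⟨B, fun M hM => ⟨C4 * (2 * (2 * M + 4 * Cv)) + 8 * D * C2 * M + 1, by positivity, x4 + x2 + 3, ?_⟩⟩
  intro x hx K hK hlK hxK F₁ F₂ ok1 ok2 hg
  have hx3 : (3 : ℝ) ≤ x := by exact_mod_cast (by omega : 3 ≤ x)
  have hlog : 1 ≤ Real.log x := by
    rw [Real.le_log_iff_exp_le (by linarith)]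
    linarith [Real.exp_one_lt_d9]
  have hK0 : (0 : ℝ) < K := by exact_mod_cast (by omega : 0 < K)
  obtain ⟨N, hN⟩ : ∃ N, N = NN F₁ F₂ K := ⟨_, rfl⟩
  have hNm : ∀ n ∈ N, n ∈ Icc 1 K ∧ F₁.eval (n : ℤ) ≠ F₂.eval (n : ℤ) := fun n hn => by
    rw [hN, NN, mem_filter] at hn; exact hn
  have hNc : (N.card : ℝ) ≤ K := by
    have h5 : N.card ≤ (Icc 1 K).card := by rw [hN, NN]; exact card_filter_le _ _
    rw [Nat.card_Icc] at h5
    exact_mod_cast (by omega : N.card ≤ K)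
  -- counts
  obtain ⟨cc, hcc⟩ : ∃ cc : ℕ → ℕ → ℕ, cc = fun n n' : ℕ => ((Icc 1 x).filter fun a : ℕ =>
    (((a : ℤ) + F₁.eval (n : ℤ)).toNat.Prime ∧ ((a : ℤ) + F₂.eval (n : ℤ)).toNat.Prime) ∧
    (((a : ℤ) + F₁.eval (n' : ℤ)).toNat.Prime ∧ ((a : ℤ) + F₂.eval (n' : ℤ)).toNat.Prime)).card := ⟨_, rfl⟩
  have hexp : ∑ a ∈ Icc 1 x, (pr F₁ F₂ K a : ℝ) ^ 2 = ∑ n ∈ N, ∑ n' ∈ N, (cc n n' : ℝ) := by
    have e1 : ∀ a ∈ Icc 1 x, (pr F₁ F₂ K a : ℝ) ^ 2 = ∑ n ∈ N, ∑ n' ∈ N,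
        (if (((a : ℤ) + F₁.eval (n : ℤ)).toNat.Prime ∧ ((a : ℤ) + F₂.eval (n : ℤ)).toNat.Prime) ∧
          (((a : ℤ) + F₁.eval (n' : ℤ)).toNat.Prime ∧ ((a : ℤ) + F₂.eval (n' : ℤ)).toNat.Prime) then (1 : ℝ) else 0) := by
      intro a _
      unfold pr
      rw [← hN, sq, card_filter]
      push_cast
      rw [sum_mul_sum]
      refine sum_congr rfl fun n _ => sum_congr rfl fun n' _ => ?_
      split_ifs <;> simp_all
    rw [sum_congr rfl e1, sum_comm]
    refine sum_congr rfl fun n _ => ?_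
    rw [sum_comm]
    refine sum_congr rfl fun n' _ => ?_
    rw [hcc, sum_boole]
  rw [hexp]
  -- good pairs
  obtain ⟨Gd, hGd⟩ : ∃ Gd : ℕ → ℕ → Prop, Gd = fun n n' : ℕ => F₁.eval (n : ℤ) ≠ F₁.eval (n' : ℤ) ∧ F₁.eval (n : ℤ) ≠ F₂.eval (n' : ℤ) ∧
    F₂.eval (n : ℤ) ≠ F₁.eval (n' : ℤ) ∧ F₂.eval (n : ℤ) ≠ F₂.eval (n' : ℤ) := ⟨_, rfl⟩
  obtain ⟨g, hgg⟩ : ∃ g : ℕ → ℝ, g = fun n : ℕ => R B (F₁.eval (n : ℤ)) (F₂.eval (n : ℤ)) := ⟨_, rfl⟩
  have hg0 : ∀ n, 0 ≤ g n := fun n => by rw [hgg]; exact R_nonneg _ _ _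
  have hgs : ∑ n ∈ N, g n ≤ M * K := by rw [hN, hgg]; exact hg
  have hv1 : ∀ n ∈ N, |F₁.eval (n : ℤ)| ≤ x := fun n hn => ok1.2.2.2 n (hNm n hn).1
  have hv2 : ∀ n ∈ N, |F₂.eval (n : ℤ)| ≤ x := fun n hn => ok2.2.2.2 n (hNm n hn).1
  have hgood : ∀ n ∈ N, ∀ n' ∈ N, Gd n n' → (cc n n' : ℝ) ≤ C4 * x / Real.log x ^ 4 *
      (2 * (g n + g n' + (R B (F₁.eval (n : ℤ)) (F₁.eval (n' : ℤ)) + R B (F₁.eval (n : ℤ)) (F₂.eval (n' : ℤ)) +
        R B (F₂.eval (n : ℤ)) (F₁.eval (n' : ℤ)) + R B (F₂.eval (n : ℤ)) (F₂.eval (n' : ℤ))))) := by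
    intro n hn n' hn' hG
    rw [hGd] at hG
    obtain ⟨g1, g2, g3, g4⟩ := hG
    have g5 := (hNm n hn).2
    have g6 := (hNm n' hn').2
    have h5 := h4 x (by omega) ![F₁.eval (n : ℤ), F₂.eval (n : ℤ), F₁.eval (n' : ℤ), F₂.eval (n' : ℤ)]
      (inj4 g5 g1 g2 g3 g4 g6) (by
        intro j
        fin_cases j
        · exact hv1 n hn
        · exact hv2 n hn
        · exact hv1 n' hn'
        · exact hv2 n' hn')
    have h6 : cc n n' ≤ ((Icc 1 x).filter fun a : ℕ => ∀ j, ((a : ℤ) +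
        ![F₁.eval (n : ℤ), F₂.eval (n : ℤ), F₁.eval (n' : ℤ), F₂.eval (n' : ℤ)] j).toNat.Prime).card := by
      rw [hcc]
      apply card_le_card
      intro a ha
      rw [mem_filter] at ha ⊢
      refine ⟨ha.1, fun j => ?_⟩
      fin_cases j
      · exact ha.2.1.1
      · exact ha.2.1.2
      · exact ha.2.2.1
      · exact ha.2.2.2
    have h7 : (cc n n' : ℝ) ≤ _ := (Nat.cast_le (α := ℝ).2 h6).trans h5
    refine h7.trans ?_
    apply mul_le_mul_of_nonneg_left _ (by positivity)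
    rw [ps4, hgg]
    have hBB : B4 ≤ B := by omega
    have m1 := R_mono hBB g5
    have m2 := R_mono hBB g1
    have m3 := R_mono hBB g2
    have m4 := R_mono hBB g3
    have m5 := R_mono hBB g4
    have m6 := R_mono hBB g6
    simp only
    linarith
  have hbad : ∀ n ∈ N, ∀ n' ∈ N, (cc n n' : ℝ) ≤ C2 * x / Real.log x ^ 2 * (2 * g n) := by
    intro n hn n' hn'
    have g5 := (hNm n hn).2
    have h5 := h2 x (by omega) ![F₁.eval (n : ℤ), F₂.eval (n : ℤ)] (inj2 g5) (by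
        intro j
        fin_cases j
        · exact hv1 n hn
        · exact hv2 n hn)
    have h6 : cc n n' ≤ ((Icc 1 x).filter fun a : ℕ => ∀ j, ((a : ℤ) +
        ![F₁.eval (n : ℤ), F₂.eval (n : ℤ)] j).toNat.Prime).card := by
      rw [hcc]
      apply card_le_card
      intro a ha
      rw [mem_filter] at ha ⊢
      refine ⟨ha.1, fun j => ?_⟩
      fin_cases j
      · exact ha.2.1.1
      · exact ha.2.1.2
    have h7 : (cc n n' : ℝ) ≤ _ := (Nat.cast_le (α := ℝ).2 h6).trans h5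
    refine h7.trans ?_
    apply mul_le_mul_of_nonneg_left _ (by positivity)
    rw [ps2, hgg]
    have m1 := R_mono (show B2 ≤ B by omega) g5
    simp only
    linarith
  have hbadc : ∀ n ∈ N, ((N.filter fun n' => ¬ Gd n n').card : ℝ) ≤ 4 * D := by
    intro n hn
    have hsub : N.filter (fun n' => ¬ Gd n n') ⊆
        (((Icc 1 K).filter fun m : ℕ => F₁.eval (m : ℤ) = F₁.eval (n : ℤ)) ∪ ((Icc 1 K).filter fun m : ℕ => F₂.eval (m : ℤ) = F₁.eval (n : ℤ))) ∪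
        (((Icc 1 K).filter fun m : ℕ => F₁.eval (m : ℤ) = F₂.eval (n : ℤ)) ∪ ((Icc 1 K).filter fun m : ℕ => F₂.eval (m : ℤ) = F₂.eval (n : ℤ))) := by
      intro m hm
      rw [mem_filter] at hm
      have h5 := (hNm m hm.1).1
      have h6 := hm.2
      rw [hGd] at h6
      rw [mem_union, mem_union, mem_union, mem_filter, mem_filter, mem_filter, mem_filter]
      by_contra hcon
      push Not at hcon
      obtain ⟨⟨c1, c2⟩, c3, c4⟩ := hcon
      exact h6 ⟨fun h => c1 h5 h.symm, fun h => c2 h5 h.symm, fun h => c3 h5 h.symm, fun h => c4 h5 h.symm⟩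
    have h5 := (card_le_card hsub).trans ((card_union_le _ _).trans (add_le_add (card_union_le _ _) (card_union_le _ _)))
    have d1 := (eq_le F₁ ok1.1 K (F₁.eval (n : ℤ))).trans ok1.2.1
    have d2 := (eq_le F₂ ok2.1 K (F₁.eval (n : ℤ))).trans ok2.2.1
    have d3 := (eq_le F₁ ok1.1 K (F₂.eval (n : ℤ))).trans ok1.2.1
    have d4 := (eq_le F₂ ok2.1 K (F₂.eval (n : ℤ))).trans ok2.2.1
    have h6 : (N.filter fun n' => ¬ Gd n n').card ≤ 4 * D := by omega
    exact_mod_cast h6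
  -- averages
  have hav' : ∀ F : ℤ[X], Ok D Λ x K F → ∀ c : ℤ, |c| ≤ x →
      ∑ n' ∈ (Icc 1 K).filter (fun n' : ℕ => F.eval (n' : ℤ) ≠ c), R B c (F.eval (n' : ℤ)) ≤ Cv * K := by
    intro F ok c hc
    obtain ⟨e1, e2⟩ := sub_C_facts F ok.1 c
    have hl0 : F.leadingCoeff ≠ 0 := by
      rw [Ne, leadingCoeff_eq_zero]
      intro h
      have := ok.1
      rw [h, natDegree_zero] at this
      omega
    have h5 := hav K hK (F - C c) (by rw [e1]; exact ok.2.1) (by rw [e2]; exact hl0) (by rw [e2]; exact ok.2.2.1) (by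
      intro n hn
      rw [eval_sub, eval_C]
      refine le_trans ?_ hxK
      have h6 := ok.2.2.2 n hn
      have h7 : ((F.eval (n : ℤ) - c).natAbs : ℤ) ≤ 2 * x := by
        rw [Int.natCast_natAbs]
        exact (abs_sub _ _).trans (by linarith)
      exact_mod_cast h7)
    refine le_trans (le_of_eq ?_) h5
    apply sum_congr
    · ext n
      rw [mem_filter, mem_filter, eval_sub, eval_C, sub_ne_zero]
    · intro n _
      unfold R
      rw [eval_sub, eval_C]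
  -- the good part
  have hsplit : ∀ n ∈ N, ∑ n' ∈ N, (cc n n' : ℝ) ≤ C4 * x / Real.log x ^ 4 * (2 * (g n * K + M * K + 4 * (Cv * K))) +
      4 * D * (C2 * x / Real.log x ^ 2 * (2 * g n)) := by
    intro n hn
    rw [← sum_filter_add_sum_filter_not N (fun n' => Gd n n')]
    apply add_le_add
    · calc ∑ n' ∈ N.filter (fun n' => Gd n n'), (cc n n' : ℝ) ≤ ∑ n' ∈ N.filter (fun n' => Gd n n'), C4 * x / Real.log x ^ 4 *
          (2 * (g n + g n' + (R B (F₁.eval (n : ℤ)) (F₁.eval (n' : ℤ)) + R B (F₁.eval (n : ℤ)) (F₂.eval (n' : ℤ)) +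
            R B (F₂.eval (n : ℤ)) (F₁.eval (n' : ℤ)) + R B (F₂.eval (n : ℤ)) (F₂.eval (n' : ℤ))))) := by
            refine sum_le_sum fun n' hn' => ?_
            rw [mem_filter] at hn'
            exact hgood n hn n' hn'.1 hn'.2
        _ ≤ _ := by
            rw [← mul_sum]
            apply mul_le_mul_of_nonneg_left _ (by positivity)
            rw [← mul_sum]
            apply mul_le_mul_of_nonneg_left _ (by norm_num)
            rw [sum_add_distrib, sum_add_distrib, sum_add_distrib, sum_add_distrib, sum_add_distrib]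
            have s1 : ∑ n' ∈ N.filter (fun n' => Gd n n'), g n ≤ g n * K := by
              rw [sum_const, nsmul_eq_mul, mul_comm]
              apply mul_le_mul_of_nonneg_left _ (hg0 n)
              refine le_trans ?_ hNc
              exact_mod_cast card_filter_le _ _
            have s2 : ∑ n' ∈ N.filter (fun n' => Gd n n'), g n' ≤ M * K :=
              (sum_le_sum_of_subset_of_nonneg (filter_subset _ _) fun i _ _ => hg0 i).trans hgs
            have s3 : ∀ F : ℤ[X], Ok D Λ x K F → ∀ c : ℤ, |c| ≤ x → (∀ n' ∈ N.filter (fun n' => Gd n n'), F.eval (n' : ℤ) ≠ c) →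
                ∑ n' ∈ N.filter (fun n' => Gd n n'), R B c (F.eval (n' : ℤ)) ≤ Cv * K := by
              intro F ok c hc hne
              refine le_trans (sum_le_sum_of_subset_of_nonneg ?_ fun i _ _ => R_nonneg _ _ _) (hav' F ok c hc)
              intro m hm
              rw [mem_filter]
              exact ⟨(hNm m (mem_filter.1 hm).1).1, hne m hm⟩
            have hGm : ∀ m ∈ N.filter (fun n' => Gd n n'), F₁.eval (n : ℤ) ≠ F₁.eval (m : ℤ) ∧ F₁.eval (n : ℤ) ≠ F₂.eval (m : ℤ) ∧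
                F₂.eval (n : ℤ) ≠ F₁.eval (m : ℤ) ∧ F₂.eval (n : ℤ) ≠ F₂.eval (m : ℤ) := fun m hm => by
              have h8 := (mem_filter.1 hm).2
              rw [hGd] at h8
              exact h8
            have t1 := s3 F₁ ok1 (F₁.eval (n : ℤ)) (hv1 n hn) (fun m hm => ((hGm m hm).1).symm)
            have t2 := s3 F₂ ok2 (F₁.eval (n : ℤ)) (hv1 n hn) (fun m hm => ((hGm m hm).2.1).symm)
            have t3 := s3 F₁ ok1 (F₂.eval (n : ℤ)) (hv2 n hn) (fun m hm => ((hGm m hm).2.2.1).symm)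
            have t4 := s3 F₂ ok2 (F₂.eval (n : ℤ)) (hv2 n hn) (fun m hm => ((hGm m hm).2.2.2).symm)
            linarith
    · calc ∑ n' ∈ N.filter (fun n' => ¬ Gd n n'), (cc n n' : ℝ) ≤ ∑ n' ∈ N.filter (fun n' => ¬ Gd n n'),
            C2 * x / Real.log x ^ 2 * (2 * g n) := sum_le_sum fun n' hn' => hbad n hn n' (mem_filter.1 hn').1
        _ ≤ _ := by
            rw [sum_const, nsmul_eq_mul]
            apply mul_le_mul_of_nonneg_right (hbadc n hn)
            have := hg0 n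
            positivity
  refine (sum_le_sum hsplit).trans ?_
  have hfin : ∑ n ∈ N, (C4 * x / Real.log x ^ 4 * (2 * (g n * K + M * K + 4 * (Cv * K))) +
      4 * D * (C2 * x / Real.log x ^ 2 * (2 * g n))) =
      C4 * x / Real.log x ^ 4 * (2 * ((∑ n ∈ N, g n) * K + (N.card : ℝ) * (M * K) + (N.card : ℝ) * (4 * (Cv * K)))) +
      4 * D * (C2 * x / Real.log x ^ 2 * (2 * ∑ n ∈ N, g n)) := by
    rw [sum_add_distrib]
    congr 1
    · rw [← mul_sum, ← mul_sum, sum_add_distrib, sum_add_distrib, ← sum_mul, sum_const, sum_const, nsmul_eq_mul, nsmul_eq_mul]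
    · rw [← mul_sum, ← mul_sum, ← mul_sum]
  rw [hfin]
  have hMK : 0 ≤ M * K := by positivity
  have hCK : 0 ≤ Cv * K := by positivity
  have q1 : (∑ n ∈ N, g n) * K + (N.card : ℝ) * (M * K) + (N.card : ℝ) * (4 * (Cv * K)) ≤ (2 * M + 4 * Cv) * (K : ℝ) ^ 2 := by
    have a1 : (∑ n ∈ N, g n) * K ≤ (M * K) * K := mul_le_mul_of_nonneg_right hgs hK0.le
    have a2 : (N.card : ℝ) * (M * K) ≤ K * (M * K) := mul_le_mul_of_nonneg_right hNc hMK
    have a3 : (N.card : ℝ) * (4 * (Cv * K)) ≤ K * (4 * (Cv * K)) := mul_le_mul_of_nonneg_right hNc (by positivity)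
    nlinarith
  have q2 : x * (K : ℝ) / Real.log x ^ 2 ≤ x * (K : ℝ) ^ 2 / Real.log x ^ 4 := by
    rw [div_le_div_iff₀ (by positivity) (by positivity)]
    have : x * (K : ℝ) * Real.log x ^ 4 = x * K * (Real.log x ^ 2 * Real.log x ^ 2) := by ring
    rw [this]
    have h9 : Real.log x ^ 2 * Real.log x ^ 2 ≤ K * Real.log x ^ 2 := by
      apply mul_le_mul_of_nonneg_right hlK (by positivity)
    calc x * (K : ℝ) * (Real.log x ^ 2 * Real.log x ^ 2) ≤ x * K * (K * Real.log x ^ 2) := by gcongr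
      _ = _ := by ring
  have q3 : C4 * x / Real.log x ^ 4 * (2 * ((∑ n ∈ N, g n) * K + (N.card : ℝ) * (M * K) + (N.card : ℝ) * (4 * (Cv * K)))) ≤
      C4 * (2 * (2 * M + 4 * Cv)) * (x * (K : ℝ) ^ 2 / Real.log x ^ 4) := by
    calc _ ≤ C4 * x / Real.log x ^ 4 * (2 * ((2 * M + 4 * Cv) * (K : ℝ) ^ 2)) := by gcongr
      _ = _ := by ring
  have q4 : 4 * D * (C2 * x / Real.log x ^ 2 * (2 * ∑ n ∈ N, g n)) ≤ 8 * D * C2 * M * (x * (K : ℝ) ^ 2 / Real.log x ^ 4) := by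
    calc _ ≤ 4 * D * (C2 * x / Real.log x ^ 2 * (2 * (M * K))) := by gcongr
      _ = 8 * D * C2 * M * (x * (K : ℝ) / Real.log x ^ 2) := by ring
      _ ≤ _ := by
          apply mul_le_mul_of_nonneg_left q2
          positivity
  have q5 : 0 ≤ x * (K : ℝ) ^ 2 / Real.log x ^ 4 := by positivity
  linarith [q3, q4, q5]

end Run7.h870.PQ
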