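import Pool.Agent.H646.Tuples
import Pool.Agent.Run7.h870.LG.Avg

/-!
# `m / φ(m)` on average over the values of a polynomial, uniformly in the polynomial
-/

set_option autoImplicit false
set_option linter.all false

namespace Run7.h870.PQ

open Finset Filter Polynomial
open Pool.Agent.H646 (rat)

/-- roots modulo a prime -/
theorem roots_le (F : ℤ[X]) {p : ℕ} (hp : p.Prime) (hl : ¬ (p : ℤ) ∣ F.leadingCoeff) :
    ((range p).filter fun n : ℕ => (p : ℤ) ∣ F.eval (n : ℤ)).card ≤ F.natDegree := by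
  classical
  haveI : Fact p.Prime := ⟨hp⟩
  obtain ⟨G, hG⟩ : ∃ G : (ZMod p)[X], G = F.map (Int.castRingHom (ZMod p)) := ⟨_, rfl⟩
  have hl' : (Int.castRingHom (ZMod p)) F.leadingCoeff ≠ 0 := by
    rw [eq_intCast]
    intro h
    exact hl ((ZMod.intCast_zmod_eq_zero_iff_dvd _ _).1 h)
  have hG0 : G ≠ 0 := by
    rw [hG]
    intro h
    apply hl'
    have h1 : (F.map (Int.castRingHom (ZMod p))).coeff F.natDegree = 0 := by rw [h, coeff_zero]
    rwa [coeff_map] at h1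
  have hdeg : G.natDegree ≤ F.natDegree := by rw [hG]; exact natDegree_map_le
  have h1 : ((range p).filter fun n : ℕ => (p : ℤ) ∣ F.eval (n : ℤ)).card ≤ G.roots.toFinset.card := by
    apply card_le_card_of_injOn (fun n : ℕ => (n : ZMod p))
    · intro n hn
      rw [mem_coe, mem_filter, mem_range] at hn
      rw [mem_coe, Multiset.mem_toFinset, mem_roots hG0, IsRoot.def, hG]
      have h2 : eval ((n : ℤ) : ZMod p) (F.map (Int.castRingHom (ZMod p))) = ((F.eval (n : ℤ) : ℤ) : ZMod p) := by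
        rw [show ((n : ℤ) : ZMod p) = Int.castRingHom (ZMod p) (n : ℤ) by simp, eval_map, eval₂_hom]
        simp
      have h3 : (((n : ℕ) : ℤ) : ZMod p) = ((n : ℕ) : ZMod p) := by simp
      rw [h3] at h2
      rw [h2]
      exact (ZMod.intCast_zmod_eq_zero_iff_dvd _ _).2 hn.2
    · intro a ha b hb hab
      rw [mem_coe, mem_filter, mem_range] at ha hb
      have h4 := (ZMod.natCast_eq_natCast_iff _ _ _).1 hab
      exact Nat.ModEq.eq_of_lt_of_lt h4 ha.1 hb.1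
  exact h1.trans ((Multiset.toFinset_card_le _).trans ((card_roots' G).trans hdeg))

/-- the count in an interval -/
theorem cnt_le (F : ℤ[X]) {p K : ℕ} (hp : p.Prime) (hl : ¬ (p : ℤ) ∣ F.leadingCoeff) (hpK : p ≤ K) :
    (((Icc 1 K).filter fun n : ℕ => (p : ℤ) ∣ F.eval (n : ℤ)).card : ℝ) ≤ 2 * F.natDegree * K / p := by
  have hper : ∀ n : ℕ, (p : ℤ) ∣ F.eval ((n + p : ℕ) : ℤ) ↔ (p : ℤ) ∣ F.eval (n : ℤ) := by
    intro n
    have h1 : ((n + p : ℕ) : ℤ) - (n : ℤ) ∣ F.eval ((n + p : ℕ) : ℤ) - F.eval (n : ℤ) := Polynomial.sub_dvd_eval_sub _ _ F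
    have h2 : (p : ℤ) ∣ F.eval ((n + p : ℕ) : ℤ) - F.eval (n : ℤ) := by
      have e : ((n + p : ℕ) : ℤ) - (n : ℤ) = p := by push_cast; ring
      rwa [e] at h1
    constructor
    · intro h
      have := dvd_sub h h2
      rwa [sub_sub_cancel] at this
    · intro h
      have := dvd_add h h2
      rwa [add_sub_cancel] at this
  have h1 := Run7.h870.LI.per_count (P := fun n : ℕ => (p : ℤ) ∣ F.eval (n : ℤ)) hp.pos hper 1 K
  have e : Ico 1 (1 + K) = Icc 1 K := by ext x; simp; omega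
  rw [e] at h1
  have h2 := roots_le F hp hl
  have h2r : (((range p).filter fun n : ℕ => (p : ℤ) ∣ F.eval (n : ℤ)).card : ℝ) ≤ F.natDegree := by exact_mod_cast h2
  have hp0 : (0 : ℝ) < p := by exact_mod_cast hp.pos
  have hKr : (p : ℝ) ≤ K := by exact_mod_cast hpK
  have h3 := (abs_le.1 h1).2
  obtain ⟨R, hR⟩ : ∃ R : ℝ, R = (((range p).filter fun n : ℕ => (p : ℤ) ∣ F.eval (n : ℤ)).card : ℝ) := ⟨_, rfl⟩
  rw [← hR] at h3 h2r
  have hR0 : 0 ≤ R := by rw [hR]; positivity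
  calc _ ≤ K * (R / p) + R := by linarith
    _ ≤ K * (R / p) + R * (K / p) := by
        have : 1 ≤ (K : ℝ) / p := by rw [le_div_iff₀ hp0]; linarith
        nlinarith
    _ = 2 * R * K / p := by ring
    _ ≤ _ := by gcongr

/-- the local factors -/
theorem rat_pow_le (B : ℕ) {m : ℕ} (hm : 0 < m) :
    rat m ^ B ≤ ∏ p ∈ m.primeFactors, (1 + 2 * ((2 ^ B : ℕ) : ℝ) / (p : ℝ)) := by
  have hn0 : (0 : ℝ) < m := by exact_mod_cast hm
  have h1 : (Nat.totient m : ℝ) = m * ∏ p ∈ m.primeFactors, (1 - (p : ℝ)⁻¹) := by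
    have := Nat.totient_eq_mul_prod_factors m
    have h2 : ((Nat.totient m : ℚ) : ℝ) = ((m * ∏ p ∈ m.primeFactors, (1 - (p : ℚ)⁻¹) : ℚ) : ℝ) := by
      rw [this]
    push_cast at h2
    exact h2
  have h2 : rat m = ∏ p ∈ m.primeFactors, ((1 : ℝ) - (p : ℝ)⁻¹)⁻¹ := by
    unfold rat
    rw [h1, ← div_div, div_self hn0.ne', one_div, Finset.prod_inv_distrib]
  rw [h2, ← Finset.prod_pow]
  refine Finset.prod_le_prod (fun p hp => ?_) fun p hp => ?_
  · have h2 : (2 : ℝ) ≤ p := by exact_mod_cast (Nat.prime_of_mem_primeFactors hp).two_le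
    have : (p : ℝ)⁻¹ ≤ 1 := inv_le_one_of_one_le₀ (by linarith)
    exact pow_nonneg (inv_nonneg.2 (by linarith)) B
  · have h2 : (2 : ℝ) ≤ p := by exact_mod_cast (Nat.prime_of_mem_primeFactors hp).two_le
    have hp0 : (0 : ℝ) < p := by linarith
    obtain ⟨x, hx⟩ : ∃ x : ℝ, x = 2 / p := ⟨_, rfl⟩
    have hx0 : 0 ≤ x := by rw [hx]; positivity
    have hx1 : x ≤ 1 := by rw [hx, div_le_one hp0]; exact h2
    have h3 : ((1 : ℝ) - (p : ℝ)⁻¹)⁻¹ ≤ 1 + x := by
      have h4 : (0 : ℝ) < 1 - (p : ℝ)⁻¹ := by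
        have : (p : ℝ)⁻¹ ≤ 1 / 2 := by
          rw [inv_eq_one_div]
          exact one_div_le_one_div_of_le (by norm_num) h2
        linarith
      rw [inv_le_iff_one_le_mul₀ h4, hx]
      have e : (1 + 2 / (p : ℝ)) * (1 - (p : ℝ)⁻¹) = 1 + (p - 2) / (p : ℝ) ^ 2 := by field_simp; ring
      rw [e]
      have : 0 ≤ ((p : ℝ) - 2) / (p : ℝ) ^ 2 := div_nonneg (by linarith) (by positivity)
      linarith
    have h5' : ∀ B : ℕ, (1 + x) ^ B ≤ 1 + ((2 : ℝ) ^ B - 1) * x := by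
      intro B
      induction B with
      | zero => simp
      | succ B ih =>
        rw [pow_succ]
        have h6 : (1 : ℝ) ≤ (2 : ℝ) ^ B := one_le_pow₀ (by norm_num)
        calc (1 + x) ^ B * (1 + x) ≤ (1 + ((2 : ℝ) ^ B - 1) * x) * (1 + x) := by gcongr
          _ ≤ 1 + ((2 : ℝ) ^ (B + 1) - 1) * x := by
              have h7 : ((2 : ℝ) ^ B - 1) * x * x ≤ ((2 : ℝ) ^ B - 1) * x * 1 := by
                apply mul_le_mul_of_nonneg_left hx1
                exact mul_nonneg (by linarith) hx0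
              rw [pow_succ]
              nlinarith
    have h5 : (1 + x) ^ B ≤ 1 + ((2 ^ B : ℕ) : ℝ) * x := by
      refine (h5' B).trans ?_
      push_cast
      nlinarith
    calc (((1 : ℝ) - (p : ℝ)⁻¹)⁻¹) ^ B ≤ (1 + x) ^ B := by
          apply pow_le_pow_left₀ _ h3
          have : (p : ℝ)⁻¹ ≤ 1 := inv_le_one_of_one_le₀ (by linarith)
          exact inv_nonneg.2 (by linarith)
      _ ≤ 1 + ((2 ^ B : ℕ) : ℝ) * x := h5
      _ = _ := by rw [hx]; ring

/-- **the average** -/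
theorem avg (D Λ B : ℕ) : ∃ C : ℝ, 0 < C ∧ ∀ K : ℕ, 3 ≤ K → ∀ F : ℤ[X], F.natDegree ≤ D →
    F.leadingCoeff ≠ 0 → F.leadingCoeff.natAbs ≤ Λ →
    (∀ n ∈ Icc 1 K, ((F.eval ((n : ℕ) : ℤ)).natAbs : ℝ) ≤ Real.exp K) →
    ∑ n ∈ (Icc 1 K).filter (fun n : ℕ => F.eval (n : ℤ) ≠ 0), rat (F.eval (n : ℤ)).natAbs ^ B ≤ C * K := by
  classical
  obtain ⟨c, hc⟩ : ∃ c : ℕ, c = 2 ^ B := ⟨_, rfl⟩
  obtain ⟨C1, hC1, HC⟩ := Run7.h870.LG.prod_small c
  have hsum : Summable fun n : ℕ => 1 / (n : ℝ) ^ (7 / 4 : ℝ) :=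
    Real.summable_one_div_nat_rpow.2 (by norm_num)
  obtain ⟨C2, hC2⟩ : ∃ C2 : ℝ, C2 = ∑' n : ℕ, 1 / (n : ℝ) ^ (7 / 4 : ℝ) := ⟨_, rfl⟩
  have hC20 : 0 ≤ C2 := by
    rw [hC2]
    exact tsum_nonneg fun n => by positivity
  obtain ⟨w, hw⟩ : ∃ w, w = max Λ 2 := ⟨_, rfl⟩
  have hw2 : 2 ≤ w := hw ▸ le_max_right _ _
  have hwΛ : Λ ≤ w := hw ▸ le_max_left _ _
  obtain ⟨C0, hC0⟩ : ∃ C0 : ℝ, C0 = ∏ p ∈ (Icc 1 w).filter Nat.Prime, (1 + 2 * (c : ℝ) / (p : ℝ)) := ⟨_, rfl⟩
  have hC01 : 1 ≤ C0 := by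
    rw [hC0]
    apply Finset.prod_induction _ (fun x : ℝ => 1 ≤ x) (fun a b ha hb => one_le_mul_of_one_le_of_one_le ha hb) le_rfl
    intro p _
    have : (0 : ℝ) ≤ 2 * (c : ℝ) / (p : ℝ) := by positivity
    linarith
  refine ⟨C0 * Real.exp (2 * c) * (1 + 2 * c * C1 * (2 * D * C2)), by positivity, ?_⟩
  intro K hK F hD hl0 hl hval
  have hK0 : (0 : ℝ) < K := by exact_mod_cast (by omega : 0 < K)
  -- the primes between
  obtain ⟨P, hP⟩ : ∃ P, P = (Ioc w K).filter Nat.Prime := ⟨_, rfl⟩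
  have hpt : ∀ n ∈ (Icc 1 K).filter (fun n : ℕ => F.eval (n : ℤ) ≠ 0), rat (F.eval (n : ℤ)).natAbs ^ B ≤
      C0 * Real.exp (2 * c) * (1 + 2 * c * C1 * ∑ p ∈ P.filter (fun p : ℕ => (p : ℤ) ∣ F.eval (n : ℤ)), (p : ℝ) ^ (-(3 / 4) : ℝ)) := by
    intro n hn
    rw [mem_filter] at hn
    obtain ⟨m, hm⟩ : ∃ m, m = (F.eval (n : ℤ)).natAbs := ⟨_, rfl⟩
    have hm0 : 0 < m := by rw [hm]; exact Int.natAbs_pos.2 hn.2
    have hmK : (m : ℝ) ≤ Real.exp K := by rw [hm]; exact hval n hn.1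
    have hdv : ∀ p : ℕ, p ∣ m ↔ (p : ℤ) ∣ F.eval (n : ℤ) := fun p => by rw [hm, Int.natCast_dvd]
    rw [← hm]
    refine (rat_pow_le B hm0).trans ?_
    rw [← hc]
    obtain ⟨g, hg⟩ : ∃ g : ℕ → ℝ, g = fun p : ℕ => 1 + 2 * (c : ℝ) / (p : ℝ) := ⟨_, rfl⟩
    have hg1 : ∀ p, 1 ≤ g p := fun p => by
      rw [hg]
      have : (0 : ℝ) ≤ 2 * (c : ℝ) / (p : ℝ) := by positivity
      simp only
      linarith
    have hg0 : ∀ p, 0 ≤ g p := fun p => by linarith [hg1 p]
    have e0 : ∏ p ∈ m.primeFactors, (1 + 2 * (c : ℝ) / (p : ℝ)) = ∏ p ∈ m.primeFactors, g p := by rw [hg]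
    rw [e0, ← prod_filter_mul_prod_filter_not m.primeFactors (fun p => p ≤ w),
      ← prod_filter_mul_prod_filter_not (m.primeFactors.filter fun p => ¬ p ≤ w) (fun p => p ≤ K)]
    have b1 : ∏ p ∈ m.primeFactors.filter (fun p => p ≤ w), g p ≤ C0 := by
      rw [hC0]
      have e1 : ∏ p ∈ (Icc 1 w).filter Nat.Prime, (1 + 2 * (c : ℝ) / (p : ℝ)) = ∏ p ∈ (Icc 1 w).filter Nat.Prime, g p := by rw [hg]
      rw [e1]
      have hsub : m.primeFactors.filter (fun p => p ≤ w) ⊆ (Icc 1 w).filter Nat.Prime := by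
        intro p hp
        rw [mem_filter, Nat.mem_primeFactors] at hp
        rw [mem_filter, mem_Icc]
        exact ⟨⟨hp.1.1.one_le, hp.2⟩, hp.1.1⟩
      rw [← prod_sdiff hsub]
      apply le_mul_of_one_le_left (prod_nonneg fun p _ => hg0 p)
      apply Finset.prod_induction _ (fun x : ℝ => 1 ≤ x) (fun a b ha hb => one_le_mul_of_one_le_of_one_le ha hb) le_rfl
      intro p _
      exact hg1 p
    have b3 : ∏ p ∈ (m.primeFactors.filter fun p => ¬ p ≤ w).filter (fun p => ¬ p ≤ K), g p ≤ Real.exp (2 * c) := by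
      obtain ⟨S, hS⟩ : ∃ S, S = (m.primeFactors.filter fun p => ¬ p ≤ w).filter (fun p => ¬ p ≤ K) := ⟨_, rfl⟩
      rw [← hS]
      have hSp : ∀ p ∈ S, p.Prime ∧ K < p := fun p hp => by
        rw [hS, mem_filter, mem_filter, Nat.mem_primeFactors] at hp
        exact ⟨hp.1.1.1, not_le.1 hp.2⟩
      have hSd : ∏ p ∈ S, p ∣ m := by
        have h1 : S ⊆ m.primeFactors := by rw [hS]; exact (filter_subset _ _).trans (filter_subset _ _)
        exact (prod_dvd_prod_of_subset _ _ _ h1).trans (Nat.prod_primeFactors_dvd m)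
      have h2 : (K : ℝ) ^ S.card ≤ m := by
        have h3 : K ^ S.card ≤ ∏ p ∈ S, p := by
          rw [← prod_const]
          exact prod_le_prod' fun p hp => (hSp p hp).2.le
        exact_mod_cast h3.trans (Nat.le_of_dvd hm0 hSd)
      have h4 : (S.card : ℝ) ≤ K := by
        have h5 := Real.log_le_log (by positivity) (h2.trans hmK)
        rw [Real.log_pow, Real.log_exp] at h5
        have h6 : 1 ≤ Real.log K := by
          rw [Real.le_log_iff_exp_le hK0]
          have : (3 : ℝ) ≤ K := by exact_mod_cast hK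
          linarith [Real.exp_one_lt_d9]
        have h7 : (S.card : ℝ) * 1 ≤ S.card * Real.log K := mul_le_mul_of_nonneg_left h6 (by positivity)
        linarith
      calc ∏ p ∈ S, g p ≤ ∏ p ∈ S, Real.exp (2 * (c : ℝ) / K) := by
            apply prod_le_prod (fun p _ => hg0 p)
            intro p hp
            have h8 : (K : ℝ) ≤ p := by exact_mod_cast (hSp p hp).2.le
            have h9 : g p ≤ 2 * (c : ℝ) / K + 1 := by
              rw [hg]
              have : 2 * (c : ℝ) / (p : ℝ) ≤ 2 * (c : ℝ) / K := by gcongr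
              simp only
              linarith
            exact h9.trans (Real.add_one_le_exp _)
        _ = Real.exp (S.card * (2 * (c : ℝ) / K)) := by rw [prod_const, ← Real.exp_nat_mul]
        _ ≤ Real.exp (2 * c) := by
            apply Real.exp_le_exp.2
            calc (S.card : ℝ) * (2 * (c : ℝ) / K) ≤ K * (2 * (c : ℝ) / K) := by gcongr
              _ = 2 * c := by field_simp
    have b2 : ∏ p ∈ (m.primeFactors.filter fun p => ¬ p ≤ w).filter (fun p => p ≤ K), g p ≤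
        1 + 2 * c * C1 * ∑ p ∈ P.filter (fun p : ℕ => (p : ℤ) ∣ F.eval (n : ℤ)), (p : ℝ) ^ (-(3 / 4) : ℝ) := by
      have hset : (m.primeFactors.filter fun p => ¬ p ≤ w).filter (fun p => p ≤ K) = P.filter (fun p : ℕ => (p : ℤ) ∣ F.eval (n : ℤ)) := by
        ext p
        rw [mem_filter, mem_filter, Nat.mem_primeFactors, hP, mem_filter, mem_filter, mem_Ioc, hdv p]
        constructor
        · rintro ⟨⟨⟨h1, h2, h3⟩, h4⟩, h5⟩
          exact ⟨⟨⟨by omega, h5⟩, h1⟩, h2⟩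
        · rintro ⟨⟨⟨h1, h2⟩, h3⟩, h4⟩
          exact ⟨⟨⟨h3, h4, hm0.ne'⟩, by omega⟩, h2⟩
      rw [hset, hg]
      obtain ⟨R, hR⟩ : ∃ R, R = P.filter (fun p : ℕ => (p : ℤ) ∣ F.eval (n : ℤ)) := ⟨_, rfl⟩
      rw [← hR, prod_add_ordered, prod_const_one, mul_sum]
      apply add_le_add le_rfl
      refine sum_le_sum fun p hp => ?_
      rw [prod_const_one, mul_one]
      have hpP : p ∈ P := by rw [hR] at hp; exact (mem_filter.1 hp).1
      have hpp : p.Prime := by rw [hP, mem_filter] at hpP; exact hpP.2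
      have hp3 : 3 ≤ p := by rw [hP, mem_filter, mem_Ioc] at hpP; omega
      have hp0 : (0 : ℝ) < p := by exact_mod_cast hpp.pos
      have h1 := HC p (R.filter (fun j => j < p)) hp3 fun q hq => by
        rw [mem_filter, hR, mem_filter, hP, mem_filter] at hq
        exact ⟨hq.1.1.2, hq.2⟩
      calc 2 * (c : ℝ) / (p : ℝ) * _ ≤ 2 * (c : ℝ) / (p : ℝ) * (C1 * (p : ℝ) ^ (1 / 4 : ℝ)) :=
            mul_le_mul_of_nonneg_left h1 (by positivity)
        _ = 2 * c * C1 * (p : ℝ) ^ (-(3 / 4) : ℝ) := by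
            have e : (p : ℝ) ^ (-(3 / 4) : ℝ) = (p : ℝ) ^ (1 / 4 : ℝ) / p := by
              rw [show (-(3 / 4) : ℝ) = 1 / 4 - 1 by norm_num, Real.rpow_sub hp0, Real.rpow_one]
            rw [e]
            ring
    have n1 : 0 ≤ ∏ p ∈ m.primeFactors.filter (fun p => p ≤ w), g p := prod_nonneg fun p _ => hg0 p
    have n2 : 0 ≤ ∏ p ∈ (m.primeFactors.filter fun p => ¬ p ≤ w).filter (fun p => p ≤ K), g p := prod_nonneg fun p _ => hg0 p
    have n3 : 0 ≤ ∏ p ∈ (m.primeFactors.filter fun p => ¬ p ≤ w).filter (fun p => ¬ p ≤ K), g p := prod_nonneg fun p _ => hg0 p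
    calc _ ≤ C0 * ((1 + 2 * c * C1 * ∑ p ∈ P.filter (fun p : ℕ => (p : ℤ) ∣ F.eval (n : ℤ)), (p : ℝ) ^ (-(3 / 4) : ℝ)) * Real.exp (2 * c)) := by
          apply mul_le_mul b1 _ (mul_nonneg n2 n3) (by positivity)
          apply mul_le_mul b2 b3 n3
          positivity
      _ = _ := by ring
  refine (sum_le_sum hpt).trans ?_
  rw [← mul_sum, sum_add_distrib, ← mul_sum, sum_const, nsmul_eq_mul, mul_one,
    mul_assoc (C0 * Real.exp (2 * (c : ℝ)))]
  apply mul_le_mul_of_nonneg_left _ (by positivity)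
  have hcard : (((Icc 1 K).filter (fun n : ℕ => F.eval (n : ℤ) ≠ 0)).card : ℝ) ≤ K := by
    have := card_filter_le (Icc 1 K) (fun n : ℕ => F.eval (n : ℤ) ≠ 0)
    rw [Nat.card_Icc] at this
    exact_mod_cast (by omega : ((Icc 1 K).filter (fun n : ℕ => F.eval (n : ℤ) ≠ 0)).card ≤ K)
  have hmain : ∑ n ∈ (Icc 1 K).filter (fun n : ℕ => F.eval (n : ℤ) ≠ 0),
      ∑ p ∈ P.filter (fun p : ℕ => (p : ℤ) ∣ F.eval (n : ℤ)), (p : ℝ) ^ (-(3 / 4) : ℝ) ≤ 2 * D * C2 * K := by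
    calc _ ≤ ∑ n ∈ Icc 1 K, ∑ p ∈ P.filter (fun p : ℕ => (p : ℤ) ∣ F.eval ((n : ℕ) : ℤ)), (p : ℝ) ^ (-(3 / 4) : ℝ) := by
          apply sum_le_sum_of_subset_of_nonneg (filter_subset _ _)
          intro n _ _
          exact sum_nonneg fun p _ => by positivity
      _ = ∑ p ∈ P, ∑ n ∈ (Icc 1 K).filter (fun n : ℕ => (p : ℤ) ∣ F.eval (n : ℤ)), (p : ℝ) ^ (-(3 / 4) : ℝ) := by
          simp_rw [sum_filter]
          exact sum_comm
      _ ≤ ∑ p ∈ P, 2 * D * K * (1 / (p : ℝ) ^ (7 / 4 : ℝ)) := by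
          refine sum_le_sum fun p hp => ?_
          rw [hP, mem_filter, mem_Ioc] at hp
          have hp0 : (0 : ℝ) < p := by exact_mod_cast hp.2.pos
          have hnd : ¬ (p : ℤ) ∣ F.leadingCoeff := by
            intro h
            have h1 := Int.natAbs_le_of_dvd_ne_zero h hl0
            rw [Int.natAbs_natCast] at h1
            omega
          have h1 := cnt_le F hp.2 hnd hp.1.2
          have h1' : (((Icc 1 K).filter fun n : ℕ => (p : ℤ) ∣ F.eval (n : ℤ)).card : ℝ) ≤ 2 * D * K / p := by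
            refine h1.trans ?_
            have : (F.natDegree : ℝ) ≤ D := by exact_mod_cast hD
            gcongr
          rw [sum_const, nsmul_eq_mul]
          calc _ ≤ 2 * D * K / p * (p : ℝ) ^ (-(3 / 4) : ℝ) := mul_le_mul_of_nonneg_right h1' (by positivity)
            _ = _ := by
                have e1 : 1 / (p : ℝ) ^ (7 / 4 : ℝ) = (p : ℝ) ^ (-(7 / 4) : ℝ) := by
                  rw [Real.rpow_neg hp0.le, one_div]
                have e2 : (1 : ℝ) / p = (p : ℝ) ^ (-1 : ℝ) := by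
                  rw [Real.rpow_neg hp0.le, Real.rpow_one, one_div]
                have e3 : 2 * (D : ℝ) * K / p = 2 * D * K * (1 / p) := by ring
                rw [e1, e3, e2, mul_assoc, ← Real.rpow_add hp0]
                norm_num
      _ ≤ _ := by
          rw [← mul_sum]
          have h2 : ∑ p ∈ P, 1 / (p : ℝ) ^ (7 / 4 : ℝ) ≤ C2 := by
            rw [hC2]
            exact hsum.sum_le_tsum _ fun n _ => by positivity
          calc _ ≤ 2 * D * K * C2 := mul_le_mul_of_nonneg_left h2 (by positivity)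
            _ = _ := by ring
  calc _ ≤ (K : ℝ) + 2 * c * C1 * (2 * D * C2 * K) := by
        apply add_le_add hcard
        exact mul_le_mul_of_nonneg_left hmain (by positivity)
    _ = _ := by ring

end Run7.h870.PQ
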