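import Mathlib

/-!
# The differences of a polynomial
-/

set_option autoImplicit false
set_option linter.all false

namespace Run7.h870.PQ

open Finset Filter Polynomial

theorem diff_poly (F : ℤ[X]) (hD : 2 ≤ F.natDegree) (h : ℕ) (hh : 1 ≤ h) : ∃ Q : ℤ[X],
    (∀ n : ℤ, F.eval (n + h) - F.eval n = h * Q.eval n) ∧ Q.natDegree = F.natDegree - 1 ∧
      Q.leadingCoeff = F.natDegree * F.leadingCoeff := by
  obtain ⟨D, hDD⟩ : ∃ D, D = F.natDegree := ⟨_, rfl⟩
  have hF0 : F ≠ 0 := by
    intro h0
    rw [h0, natDegree_zero] at hD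
    omega
  have hl0 : F.leadingCoeff ≠ 0 := leadingCoeff_ne_zero.2 hF0
  have hh0 : (h : ℤ) ≠ 0 := by exact_mod_cast (by omega : h ≠ 0)
  obtain ⟨G, hG⟩ : ∃ G : ℤ[X], G = taylor (h : ℤ) F - F := ⟨_, rfl⟩
  have hdvd : C (h : ℤ) ∣ G := by
    have h1 : (X + C (h : ℤ)) - X ∣ (F.map C).eval (X + C (h : ℤ)) - (F.map C).eval X := Polynomial.sub_dvd_eval_sub _ _ _
    have e1 : (F.map C).eval (X + C (h : ℤ)) = taylor (h : ℤ) F := by
      rw [eval_map, taylor_apply]
      rfl
    have e2 : (F.map C).eval X = F := by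
      rw [eval_map]
      exact eval₂_C_X
    rw [e1, e2, add_sub_cancel_left] at h1
    rw [hG]
    exact h1
  obtain ⟨Q, hQ⟩ := hdvd
  have hGD : G.coeff D = 0 := by
    rw [hG, coeff_sub, taylor_coeff, hDD, hasseDeriv_natDegree_eq_C, eval_C, coeff_natDegree, sub_self]
  have hG1 : G.coeff (D - 1) = D * h * F.leadingCoeff := by
    rw [hG, coeff_sub, taylor_coeff]
    have h1 : (hasseDeriv (D - 1) F).natDegree < 2 := by
      have := natDegree_hasseDeriv_le F (D - 1)
      omega
    rw [eval_eq_sum_range' h1, Finset.sum_range_succ, Finset.sum_range_one, hasseDeriv_coeff, hasseDeriv_coeff]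
    have e1 : 0 + (D - 1) = D - 1 := by omega
    have e2 : 1 + (D - 1) = D := by omega
    rw [e1, e2, Nat.choose_self]
    have e3 : D.choose (D - 1) = D := by
      obtain ⟨m, rfl⟩ : ∃ m, D = m + 1 := ⟨D - 1, by omega⟩
      simp
    rw [e3, pow_zero, pow_one]
    have e4 : F.coeff D = F.leadingCoeff := by rw [hDD]; rfl
    rw [e4]
    push_cast
    ring
  have hG1' : G.coeff (D - 1) ≠ 0 := by
    rw [hG1]
    have : (D : ℤ) ≠ 0 := by exact_mod_cast (by omega : D ≠ 0)
    exact mul_ne_zero (mul_ne_zero this hh0) hl0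
  have hGd : G.natDegree = D - 1 := by
    apply le_antisymm
    · have h2 : G.natDegree ≤ D := by
        rw [hG]
        refine (natDegree_sub_le _ _).trans ?_
        rw [natDegree_taylor, max_self, hDD]
      by_contra hcon
      have h3 : G.natDegree = D := by omega
      have hG0 : G ≠ 0 := by
        intro h0
        rw [h0, coeff_zero] at hG1'
        exact hG1' rfl
      have h4 := leadingCoeff_ne_zero.2 hG0
      unfold leadingCoeff at h4
      rw [h3] at h4
      exact h4 hGD
    · exact le_natDegree_of_ne_zero hG1'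
  have hQd : Q.natDegree = G.natDegree := by
    rw [hQ, natDegree_C_mul hh0]
  refine ⟨Q, fun n => ?_, ?_, ?_⟩
  · have h1 : G.eval n = F.eval (n + h) - F.eval n := by
      rw [hG, eval_sub, taylor_eval]
    rw [← h1, hQ, eval_mul, eval_C]
  · rw [hQd, hGd, hDD]
  · have h1 : G.leadingCoeff = h * Q.leadingCoeff := by rw [hQ, leadingCoeff_mul, leadingCoeff_C]
    have h2 : G.leadingCoeff = D * h * F.leadingCoeff := by
      rw [← hG1]
      unfold leadingCoeff
      rw [hGd]
    rw [h2] at h1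
    have h3 : (h : ℤ) * (D * F.leadingCoeff) = h * Q.leadingCoeff := by rw [← h1]; ring
    have h4 := mul_left_cancel₀ hh0 h3
    rw [← h4, hDD]

end Run7.h870.PQ
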