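import Pool.Agent.Run7.h27.MK.Poly
import Pool.Agent.Run7.h794.MK.All

/-!
# Prime pairs whose difference is a value of a polynomial at short arguments
-/

set_option autoImplicit false
set_option linter.all false

namespace Run7.h870.PQ

open Finset Filter Polynomial
open Pool.Agent.N699.ST (AllS Adm Fo sing nu cnt)
open Pool.Agent.Run7.h27.MK (Pol poly_all)
open Pool.Agent.Run7.h794.MK (law_all)
open scoped Classical

theorem nu_two {a : ℕ} (ha : 2 ∣ a) : nu (fun _ : Fin 1 => 1) (fun _ => a) 2 ≤ 1 := by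
  unfold nu
  have hsub : ((range 2).filter fun r => 2 ∣ r * ∏ i : Fin 1, (1 * r + a)) ⊆ {0} := by
    intro r hr
    rw [mem_filter, mem_range, Fin.prod_univ_one] at hr
    rw [mem_singleton]
    by_contra hcon
    have h1 : r = 1 := by omega
    rw [h1] at hr
    omega
  exact (card_le_card hsub).trans (by simp)

theorem nu_le {a p : ℕ} (hp : p.Prime) : nu (fun _ : Fin 1 => 1) (fun _ => a) p ≤ 2 := by
  unfold nu
  have hp0 := hp.pos
  have hsub : ((range p).filter fun r => p ∣ r * ∏ i : Fin 1, (1 * r + a)) ⊆ {0, p - a % p} := by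
    intro r hr
    rw [mem_filter, mem_range, Fin.prod_univ_one] at hr
    obtain ⟨h1, h2⟩ := hr
    rw [mem_insert, mem_singleton]
    rcases (hp.dvd_mul).1 h2 with h3 | h3
    · left
      exact Nat.eq_zero_of_dvd_of_lt h3 h1
    · rw [one_mul] at h3
      have h4 : a % p < p := Nat.mod_lt _ hp0
      have h5 : p ∣ r + a % p := by
        have e : r + a = (r + a % p) + p * (a / p) := by
          have := Nat.mod_add_div a p
          omega
        rw [e] at h3
        exact (Nat.dvd_add_left (dvd_mul_right _ _)).1 h3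
      obtain ⟨c, hc⟩ := h5
      have h6 : c < 2 := by
        by_contra hcon
        push Not at hcon
        have : p * 2 ≤ p * c := Nat.mul_le_mul_left p hcon
        omega
      interval_cases c
      · left; omega
      · right; omega
  exact (card_le_card hsub).trans (card_le_two)

/-- the singular series of a pair with an even difference -/
theorem sing_ge' (a : ℕ) (ha : 2 ∣ a) (z : ℕ) (hz : 2 ≤ z) :
    (z : ℝ) / (z - 1) ≤ sing (fun _ : Fin 1 => 1) (fun _ => a) z := by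
  induction z, hz using Nat.le_induction with
  | base =>
    unfold sing
    have e : (Icc 1 2).filter Nat.Prime = {2} := by decide
    rw [e, prod_singleton]
    have h1 : (nu (fun _ : Fin 1 => 1) (fun _ => a) 2 : ℝ) ≤ 1 := by exact_mod_cast nu_two ha
    push_cast
    rw [le_div_iff₀ (by norm_num)]
    norm_num
    linarith
  | succ z hz ih =>
    have hzr : (2 : ℝ) ≤ z := by exact_mod_cast hz
    have e : Icc 1 (z + 1) = insert (z + 1) (Icc 1 z) := by
      ext x
      rw [mem_insert, mem_Icc, mem_Icc]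
      omega
    have hni : z + 1 ∉ (Icc 1 z).filter Nat.Prime := by
      rw [mem_filter, mem_Icc]
      omega
    unfold sing at ih ⊢
    rw [e, filter_insert]
    have hq : ((z : ℝ) + 1) / z ≤ z / (z - 1) := by
      rw [div_le_div_iff₀ (by linarith) (by linarith)]
      nlinarith
    split_ifs with hp
    · rw [prod_insert hni]
      have h1 : (nu (fun _ : Fin 1 => 1) (fun _ => a) (z + 1) : ℝ) ≤ 2 := by exact_mod_cast nu_le hp
      have h2 : ((z : ℝ) + 1) * (z - 1) / z ^ 2 ≤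
          (1 - (nu (fun _ : Fin 1 => 1) (fun _ => a) (z + 1) : ℝ) / ((z + 1 : ℕ) : ℝ)) / (1 - 1 / ((z + 1 : ℕ) : ℝ)) ^ (1 + 1) := by
        have e1 : ((z + 1 : ℕ) : ℝ) = z + 1 := by push_cast; ring
        rw [e1]
        have e2 : (1 : ℝ) - 1 / (z + 1) = z / (z + 1) := by field_simp; ring
        rw [e2, div_pow, le_div_iff₀ (by positivity)]
        have e3 : ((z : ℝ) + 1) * (z - 1) / z ^ 2 * (z ^ (1 + 1) / (z + 1) ^ (1 + 1)) = 1 - 2 / (z + 1) := by
          field_simp
          ring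
        rw [e3]
        have : (nu (fun _ : Fin 1 => 1) (fun _ => a) (z + 1) : ℝ) / (z + 1) ≤ 2 / (z + 1) := by gcongr
        linarith
      have h3 : (((z + 1 : ℕ) : ℝ)) / (((z + 1 : ℕ) : ℝ) - 1) = ((z : ℝ) + 1) * (z - 1) / z ^ 2 * (z / (z - 1)) := by
        push_cast
        have hz1 : (z : ℝ) - 1 ≠ 0 := by linarith
        have hz0 : (z : ℝ) ≠ 0 := by linarith
        rw [add_sub_cancel_right]
        field_simp
      rw [h3]
      apply mul_le_mul h2 ih
      · exact div_nonneg (by linarith) (by linarith)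
      · refine le_trans ?_ h2
        exact div_nonneg (mul_nonneg (by linarith) (by linarith)) (by positivity)
    · refine le_trans ?_ ih
      push_cast
      rw [add_sub_cancel_right]
      exact hq

theorem sing_ge (a : ℕ) (ha : 2 ∣ a) {S : ℝ} (hS : Tendsto (sing (fun _ : Fin 1 => 1) (fun _ => a)) atTop (nhds S)) : 1 ≤ S := by
  refine ge_of_tendsto hS ?_
  filter_upwards [eventually_ge_atTop 2] with z hz
  refine le_trans ?_ (sing_ge' a ha z hz)
  have hzr : (2 : ℝ) ≤ z := by exact_mod_cast hz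
  rw [le_div_iff₀ (by linarith)]
  linarith

theorem adm_one (a : ℕ) (ha : 2 ∣ a) : Adm (fun _ : Fin 1 => 1) (fun _ => a) := by
  intro p hp
  rcases hp.eq_two_or_odd' with h2 | h2
  · refine ⟨1, ?_, fun i => ?_⟩
    · rw [h2]; norm_num
    · show ¬ p ∣ 1 * 1 + a
      rw [h2]
      omega
  · have h3 : 3 ≤ p := by
      have := hp.two_le
      rcases h2 with ⟨k, hk⟩
      omega
    by_cases h4 : p ∣ 1 * 1 + a
    · refine ⟨2, fun h => ?_, fun i h => ?_⟩
      · have := Nat.le_of_dvd (by norm_num) h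
        omega
      · have h5 : p ∣ 1 := by
          have e : 1 * 2 + a = (1 * 1 + a) + 1 := by ring
          have h6 : p ∣ (1 * 1 + a) + 1 := by
            rw [← e]
            exact h
          exact (Nat.dvd_add_right h4).1 h6
        have := Nat.le_of_dvd (by norm_num) h5
        omega
    · refine ⟨1, fun h => ?_, fun i => h4⟩
      have := Nat.le_of_dvd (by norm_num) h
      omega

theorem pairs_of (N a : ℕ) (hN : 3 ≤ N) (ha : 2 ∣ a) (hA : AllS (1 / 9) 1 2 N (fun _ : Fin 1 => a)) (hl : 2 ≤ Real.log N) :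
    (N : ℝ) / (3 * Real.log N ^ 2) ≤ (((Ioc (N / 2) N).filter fun q : ℕ => q.Prime ∧ (q + a).Prime).card : ℝ) := by
  have hl0 : 0 < Real.log N := by linarith
  obtain ⟨S, hS0, hS, -, h1⟩ := hA 1 (fun _ => 1) (by push_cast; rw [pow_one]; linarith) (fun _ => ⟨le_rfl, le_rfl⟩) (adm_one a ha)
  obtain ⟨S', hS0', hS', -, h2⟩ := hA 2 (fun _ => 1) (by push_cast; rw [pow_one]; linarith) (fun _ => ⟨le_rfl, by norm_num⟩) (adm_one a ha)
  have hSS : S' = S := tendsto_nhds_unique hS' hS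
  rw [hSS] at h2
  have hS1 := sing_ge a ha hS
  rw [Nat.div_one] at h1
  have e : ∀ x : ℕ, cnt (fun _ : Fin 1 => 1) (fun _ => a) x = ((Icc 1 x).filter fun q : ℕ => q.Prime ∧ (q + a).Prime).card := by
    intro x
    unfold cnt
    congr 1
    apply filter_congr
    intro q _
    constructor
    · rintro ⟨h3, h4⟩
      have := h4 0
      rw [one_mul] at this
      exact ⟨h3, this⟩
    · rintro ⟨h3, h4⟩
      refine ⟨h3, fun i => ?_⟩
      rw [one_mul]
      exact h4
  rw [e] at h1 h2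
  have hsplit : ((Icc 1 N).filter fun q : ℕ => q.Prime ∧ (q + a).Prime).card =
      ((Icc 1 (N / 2)).filter fun q : ℕ => q.Prime ∧ (q + a).Prime).card + ((Ioc (N / 2) N).filter fun q : ℕ => q.Prime ∧ (q + a).Prime).card := by
    rw [← card_union_of_disjoint]
    · congr 1
      rw [← filter_union]
      congr 1
      ext x
      rw [mem_union, mem_Icc, mem_Icc, mem_Ioc]
      omega
    · apply disjoint_filter_filter
      rw [disjoint_left]
      intro x hx hx'
      rw [mem_Icc] at hx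
      rw [mem_Ioc] at hx'
      omega
  have hsr : (((Icc 1 N).filter fun q : ℕ => q.Prime ∧ (q + a).Prime).card : ℝ) =
      (((Icc 1 (N / 2)).filter fun q : ℕ => q.Prime ∧ (q + a).Prime).card : ℝ) + (((Ioc (N / 2) N).filter fun q : ℕ => q.Prime ∧ (q + a).Prime).card : ℝ) := by
    exact_mod_cast hsplit
  have hN0 : (0 : ℝ) < N := by exact_mod_cast (by omega : 0 < N)
  have hhalf : (((N / 2 : ℕ)) : ℝ) ≤ N / 2 := Nat.cast_div_le
  obtain ⟨T, hT⟩ : ∃ T : ℝ, T = S * (N / Real.log N ^ (1 + 1)) := ⟨_, rfl⟩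
  have hT0 : 0 ≤ T := by rw [hT]; positivity
  have h2' : S * ((((N / 2 : ℕ)) : ℝ) / Real.log N ^ (1 + 1)) ≤ T / 2 := by
    rw [hT]
    calc S * ((((N / 2 : ℕ)) : ℝ) / Real.log N ^ (1 + 1)) ≤ S * ((N / 2) / Real.log N ^ (1 + 1)) := by gcongr
      _ = _ := by ring
  have a1 := (abs_le.1 h1).1
  have a2 := (abs_le.1 h2).2
  rw [← hT] at a1
  have a3 : (((Ioc (N / 2) N).filter fun q : ℕ => q.Prime ∧ (q + a).Prime).card : ℝ) ≥ T / 3 := by linarith
  refine le_trans ?_ a3
  rw [hT]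
  have e5 : (N : ℝ) / (3 * Real.log N ^ 2) = (1 * (N / Real.log N ^ (1 + 1))) / 3 := by
    field_simp
  rw [e5]
  gcongr

/-- **the first moment** -/
theorem low (d : ℕ) (hd : 1 ≤ d) (a : ℕ) : ∃ C X₀ : ℕ, ∀ Y : ℕ, X₀ ≤ Y → ∀ (G : ℤ[X]) (n₀ K : ℕ),
    G.natDegree = d → 1 ≤ G.leadingCoeff → (G.leadingCoeff : ℝ) ≤ Real.log Y ^ a →
    (Y : ℝ) ^ (1 / 3 : ℝ) * Real.log Y ^ C ≤ ((K - n₀ : ℕ) : ℝ) ^ d →
    (∀ n : ℕ, n ∈ Ioc n₀ K → 0 ≤ G.eval (n : ℤ) ∧ G.eval (n : ℤ) ≤ Y) →
    (((Ioc n₀ K).filter fun n : ℕ => 2 ∣ G.eval (n : ℤ) ∧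
      (((Ioc (3 * Y / 4 / 2) (3 * Y / 4)).filter fun q : ℕ => q.Prime ∧ (q + (G.eval (n : ℤ)).toNat).Prime).card : ℝ) <
        Y / (6 * Real.log Y ^ 2)).card : ℝ) ≤ K / Real.log Y := by
  obtain ⟨C, N₀, hmain⟩ := poly_all law_all 1 le_rfl (fun _ => 1) (fun _ => d) (fun _ => le_rfl) (fun _ => hd)
    (a + 1) 4 1 1 2 (1 / 9) (by norm_num)
  have hev : ∀ᶠ Y : ℕ in atTop, (2 : ℝ) ^ (a + 4) ≤ Real.log Y :=
    (tendsto_natCast_atTop_atTop (R := ℝ)).eventually (Real.tendsto_log_atTop.eventually_ge_atTop _)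
  obtain ⟨Y₁, hY₁⟩ := eventually_atTop.1 hev
  refine ⟨C, 2 * N₀ + Y₁ + 16, fun Y hY G n₀ K hG1 hG2 hG3 hK hval => ?_⟩
  have hl := hY₁ Y (by omega)
  obtain ⟨N, hN⟩ : ∃ N, N = 3 * Y / 4 := ⟨_, rfl⟩
  rw [← hN]
  have hN1 : N₀ ≤ N := by omega
  have hN2 : Y ≤ 2 * N := by omega
  have hN3 : N ≤ Y := by omega
  have hN4 : 3 ≤ N := by omega
  have hNr : (3 : ℝ) ≤ N := by exact_mod_cast hN4
  have hNY : (N : ℝ) ≤ Y := by exact_mod_cast hN3
  have hYN : (Y : ℝ) ≤ 2 * N := by exact_mod_cast hN2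
  have hY0 : (0 : ℝ) < Y := by linarith
  have h16 : (16 : ℝ) ≤ Real.log Y := by
    refine le_trans ?_ hl
    have : (2 : ℝ) ^ 4 ≤ 2 ^ (a + 4) := pow_le_pow_right₀ (by norm_num) (by omega)
    linarith [show (2 : ℝ) ^ 4 = 16 by norm_num]
  have hlNY : Real.log N ≤ Real.log Y := Real.log_le_log (by linarith) hNY
  have hlN : Real.log Y ≤ 2 * Real.log N := by
    have h1 : Real.log Y ≤ Real.log (2 * N) := Real.log_le_log hY0 hYN
    rw [Real.log_mul (by norm_num) (by linarith)] at h1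
    have h2 : Real.log 2 ≤ 1 := by linarith [Real.log_two_lt_d9]
    linarith
  have hlN8 : 8 ≤ Real.log N := by linarith
  obtain ⟨f, hf⟩ : ∃ f : ℤ[X], f = taylor ((n₀ + 1 : ℕ) : ℤ) G := ⟨_, rfl⟩
  have hfe : ∀ k : ℕ, f.eval (k : ℤ) = G.eval ((k + n₀ + 1 : ℕ) : ℤ) := by
    intro k
    rw [hf, taylor_eval]
    have e : (k : ℤ) + ((n₀ + 1 : ℕ) : ℤ) = ((k + n₀ + 1 : ℕ) : ℤ) := by
      push_cast
      ring
    rw [e]
  have hfd : f.natDegree = d := by rw [hf, natDegree_taylor, hG1]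
  have hfl : f.leadingCoeff = G.leadingCoeff := by
    rw [hf, leadingCoeff_taylor]
  have hPol : ∀ i : Fin 1, Pol d (a + 1) C 4 N f (K - n₀) := by
    intro _
    refine ⟨hfd, by rw [hfl]; exact hG2, ?_, ?_, ?_⟩
    · rw [hfl]
      refine hG3.trans ?_
      calc Real.log Y ^ a ≤ (2 * Real.log N) ^ a := pow_le_pow_left₀ (by linarith) hlN a
        _ = 2 ^ a * Real.log N ^ a := by rw [mul_pow]
        _ ≤ Real.log N * Real.log N ^ a := by
            apply mul_le_mul_of_nonneg_right _ (by positivity)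
            have h3 : (2 : ℝ) ^ (a + 4) = 16 * 2 ^ a := by rw [pow_add]; norm_num; ring
            have h4 : (0 : ℝ) < 2 ^ a := by positivity
            linarith
        _ = Real.log N ^ (a + 1) := by rw [pow_succ]; ring
    · refine le_trans ?_ hK
      have h5 : (N : ℝ) ^ (1 / 3 : ℝ) ≤ (Y : ℝ) ^ (1 / 3 : ℝ) := Real.rpow_le_rpow (by linarith) hNY (by norm_num)
      have h6 : Real.log N ^ C ≤ Real.log Y ^ C := pow_le_pow_left₀ (by linarith) hlNY C
      exact mul_le_mul h5 h6 (by positivity) (by positivity)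
    · intro k hk
      rw [hfe k]
      have h7 := hval (k + n₀ + 1) (by rw [mem_Ioc]; omega)
      refine ⟨h7.1, h7.2.trans ?_⟩
      have : (Y : ℤ) ≤ 2 * N := by exact_mod_cast hN2
      push_cast
      omega
  have h8 := hmain N hN1 (fun _ => f) (fun _ => K - n₀) hPol (fun _ => 0) (fun _ => Nat.zero_le _)
  rw [prod_const, card_univ, Fintype.card_fin] at h8
  have h9 : (((Ioc n₀ K).filter fun n : ℕ => 2 ∣ G.eval (n : ℤ) ∧
      (((Ioc (N / 2) N).filter fun q : ℕ => q.Prime ∧ (q + (G.eval (n : ℤ)).toNat).Prime).card : ℝ) <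
        Y / (6 * Real.log Y ^ 2)).card : ℝ) ≤
      (((Fintype.piFinset fun i : Fin 1 => range (K - n₀)).filter fun n => ¬ ∀ t : Fin 1 → ℕ, (∀ i, (t i : ℝ) ≤ Real.log N ^ 1) →
        AllS (1 / 9) 1 2 N (fun i => 0 + 1 * (f.eval ((n i : ℕ) : ℤ)).toNat + t i)).card : ℝ) := by
    rw [Nat.cast_le]
    apply card_le_card_of_injOn (fun n : ℕ => fun _ : Fin 1 => n - n₀ - 1)
    · intro n hn
      rw [mem_coe, mem_filter, mem_Ioc] at hn
      obtain ⟨⟨c1, c2⟩, c3, c4⟩ := hn
      rw [mem_coe, mem_filter, Fintype.mem_piFinset]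
      refine ⟨fun _ => ?_, fun hcon => ?_⟩
      · show n - n₀ - 1 ∈ range (K - n₀)
        rw [mem_range]
        omega
      have c5 := hcon (fun _ => 0) (fun _ => by push_cast; rw [pow_one]; linarith)
      have c6 : f.eval (((n - n₀ - 1 : ℕ) : ℕ) : ℤ) = G.eval (n : ℤ) := by
        rw [hfe]
        congr 2
        omega
      simp only [c6, zero_add, one_mul, add_zero] at c5
      obtain ⟨m, hm⟩ : ∃ m, m = (G.eval (n : ℤ)).toNat := ⟨_, rfl⟩
      have c7 := (hval n (by rw [mem_Ioc]; exact ⟨c1, c2⟩)).1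
      have c8 : 2 ∣ m := by rw [hm]; omega
      rw [← hm] at c4 c5
      have c9 := pairs_of N m hN4 c8 c5 (by linarith)
      have c10 : (Y : ℝ) / (6 * Real.log Y ^ 2) ≤ N / (3 * Real.log N ^ 2) := by
        rw [div_le_div_iff₀ (by positivity) (by positivity)]
        have h10 : Real.log N ^ 2 ≤ Real.log Y ^ 2 := pow_le_pow_left₀ (by linarith) hlNY 2
        calc (Y : ℝ) * (3 * Real.log N ^ 2) ≤ (2 * N) * (3 * Real.log Y ^ 2) := by gcongr
          _ = _ := by ring
      linarith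
    · intro x hx y hy hxy
      rw [mem_coe, mem_filter, mem_Ioc] at hx hy
      have := congrFun hxy 0
      simp only at this
      omega
  refine h9.trans (h8.trans ?_)
  rw [pow_one]
  have h11 : ((K - n₀ : ℕ) : ℝ) ≤ K := by exact_mod_cast Nat.sub_le K n₀
  have h12 : Real.log Y ≤ Real.log N ^ 2 := by nlinarith
  have hlY0 : 0 < Real.log Y := by linarith
  calc ((K - n₀ : ℕ) : ℝ) / Real.log N ^ 2 ≤ K / Real.log N ^ 2 := by gcongr
    _ ≤ K / Real.log Y := by gcongr

end Run7.h870.PQ
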