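import Pool.Agent.Run7.h870.PQ.Sm
import Pool.Agent.Run7.h870.PQ.Lo

/-!
# The first moment and the lower bound for the number of the good constants
-/

set_option autoImplicit false
set_option linter.all false

namespace Run7.h870.PQ

open Finset Filter Polynomial
open Pool.Agent.H646 (rat)
open scoped Classical

/-- the pairs of primes -/
noncomputable def pp (F₁ F₂ : ℤ[X]) (n₀ K a : ℕ) : ℕ :=
  ((Ioc n₀ K).filter fun n : ℕ => ((a : ℤ) + F₁.eval (n : ℤ)).toNat.Prime ∧ ((a : ℤ) + F₂.eval (n : ℤ)).toNat.Prime).card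

theorem first (d : ℕ) (hd : 1 ≤ d) (a : ℕ) : ∃ C X₀ : ℕ, ∀ Y : ℕ, X₀ ≤ Y → ∀ (F₁ F₂ : ℤ[X]) (n₀ K : ℕ),
    (F₂ - F₁).natDegree = d → 1 ≤ (F₂ - F₁).leadingCoeff → ((F₂ - F₁).leadingCoeff : ℝ) ≤ Real.log Y ^ a →
    (Y : ℝ) ^ (1 / 3 : ℝ) * Real.log Y ^ C ≤ ((K - n₀ : ℕ) : ℝ) ^ d →
    (∀ n : ℕ, n ∈ Ioc n₀ K → 0 ≤ (F₂ - F₁).eval (n : ℤ) ∧ (F₂ - F₁).eval (n : ℤ) ≤ Y ∧ 8 * |F₁.eval (n : ℤ)| ≤ Y) →
    (K : ℝ) / 3 ≤ (((Ioc n₀ K).filter fun n : ℕ => 2 ∣ (F₂ - F₁).eval (n : ℤ)).card : ℝ) →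
    (K : ℝ) * Y / (24 * Real.log Y ^ 2) ≤ ∑ a ∈ Icc 1 Y, (pp F₁ F₂ n₀ K a : ℝ) := by
  obtain ⟨C, X₀, hlow⟩ := low d hd a
  have hev : ∀ᶠ Y : ℕ in atTop, (12 : ℝ) ≤ Real.log Y :=
    (tendsto_natCast_atTop_atTop (R := ℝ)).eventually (Real.tendsto_log_atTop.eventually_ge_atTop _)
  obtain ⟨Y₁, hY₁⟩ := eventually_atTop.1 hev
  refine ⟨C, X₀ + Y₁ + 8, fun Y hY F₁ F₂ n₀ K h1 h2 h3 h4 h5 h6 => ?_⟩
  have hl := hY₁ Y (by omega)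
  obtain ⟨G, hG⟩ : ∃ G, G = F₂ - F₁ := ⟨_, rfl⟩
  rw [← hG] at h1 h2 h3 h5 h6
  have h7 := hlow Y (by omega) G n₀ K h1 h2 h3 h4 (fun n hn => ⟨(h5 n hn).1, (h5 n hn).2.1⟩)
  obtain ⟨cn, hcn⟩ : ∃ cn : ℕ → ℕ, cn = fun n : ℕ => ((Ioc (3 * Y / 4 / 2) (3 * Y / 4)).filter fun q : ℕ => q.Prime ∧
    (q + (G.eval (n : ℤ)).toNat).Prime).card := ⟨_, rfl⟩
  obtain ⟨U, hU⟩ : ∃ U : ℝ, U = Y / (6 * Real.log Y ^ 2) := ⟨_, rfl⟩
  have hU0 : 0 ≤ U := by rw [hU]; positivity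
  have h7' : (((Ioc n₀ K).filter fun n : ℕ => 2 ∣ G.eval (n : ℤ) ∧ (cn n : ℝ) < U).card : ℝ) ≤ K / Real.log Y := by
    rw [hcn, hU]
    exact h7
  have hswap : ∑ a ∈ Icc 1 Y, (pp F₁ F₂ n₀ K a : ℝ) = ∑ n ∈ Ioc n₀ K, (((Icc 1 Y).filter fun a : ℕ =>
      ((a : ℤ) + F₁.eval (n : ℤ)).toNat.Prime ∧ ((a : ℤ) + F₂.eval (n : ℤ)).toNat.Prime).card : ℝ) := by
    have e1 : ∀ a ∈ Icc 1 Y, (pp F₁ F₂ n₀ K a : ℝ) = ∑ n ∈ Ioc n₀ K,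
        (if ((a : ℤ) + F₁.eval (n : ℤ)).toNat.Prime ∧ ((a : ℤ) + F₂.eval (n : ℤ)).toNat.Prime then (1 : ℝ) else 0) := by
      intro a _
      unfold pp
      rw [sum_boole]
    rw [sum_congr rfl e1, sum_comm]
    refine sum_congr rfl fun n _ => ?_
    rw [sum_boole]
  have hinj : ∀ n ∈ Ioc n₀ K, cn n ≤ ((Icc 1 Y).filter fun a : ℕ =>
      ((a : ℤ) + F₁.eval (n : ℤ)).toNat.Prime ∧ ((a : ℤ) + F₂.eval (n : ℤ)).toNat.Prime).card := by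
    intro n hn
    obtain ⟨c1, c2, c3⟩ := h5 n hn
    rw [hcn]
    obtain ⟨v, hv⟩ : ∃ v, v = F₁.eval (n : ℤ) := ⟨_, rfl⟩
    obtain ⟨g, hg⟩ : ∃ g, g = G.eval (n : ℤ) := ⟨_, rfl⟩
    have hw : F₂.eval (n : ℤ) = v + g := by
      rw [hg, hG, eval_sub, ← hv]
      ring
    rw [← hg] at c1 c2
    rw [← hv] at c3
    have c4 : v ≤ |v| := le_abs_self v
    have c5 : -v ≤ |v| := neg_le_abs v
    simp only
    rw [hw, ← hv, ← hg]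
    apply card_le_card_of_injOn (fun q : ℕ => ((q : ℤ) - v).toNat)
    · intro q hq
      rw [mem_coe, mem_filter, mem_Ioc] at hq
      obtain ⟨⟨q1, q2⟩, q3, q4⟩ := hq
      rw [mem_coe, mem_filter, mem_Icc]
      have e1 : ((((q : ℤ) - v).toNat : ℕ) : ℤ) = (q : ℤ) - v := by omega
      have e2 : (q : ℤ) - v + v = q := by ring
      have e3 : (q : ℤ) - v + (v + g) = ((q + g.toNat : ℕ) : ℤ) := by
        push_cast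
        omega
      refine ⟨⟨?_, ?_⟩, ?_, ?_⟩
      · show 1 ≤ ((q : ℤ) - v).toNat
        omega
      · show ((q : ℤ) - v).toNat ≤ Y
        omega
      · show (((((q : ℤ) - v).toNat : ℕ) : ℤ) + v).toNat.Prime
        rw [e1, e2, Int.toNat_natCast]
        exact q3
      · show (((((q : ℤ) - v).toNat : ℕ) : ℤ) + (v + g)).toNat.Prime
        rw [e1, e3, Int.toNat_natCast]
        exact q4
    · intro x hx y hy hxy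
      rw [mem_coe, mem_filter, mem_Ioc] at hx hy
      have hxy' : ((x : ℤ) - v).toNat = ((y : ℤ) - v).toNat := hxy
      omega
  have hc1 : ((Ioc n₀ K).filter fun n : ℕ => 2 ∣ G.eval (n : ℤ)).card =
      ((Ioc n₀ K).filter fun n : ℕ => 2 ∣ G.eval (n : ℤ) ∧ (cn n : ℝ) < U).card +
      ((Ioc n₀ K).filter fun n : ℕ => 2 ∣ G.eval (n : ℤ) ∧ ¬ (cn n : ℝ) < U).card := by
    rw [← filter_filter, ← filter_filter, card_filter_add_card_filter_not]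
  have hc2 : (((Ioc n₀ K).filter fun n : ℕ => 2 ∣ G.eval (n : ℤ)).card : ℝ) =
      (((Ioc n₀ K).filter fun n : ℕ => 2 ∣ G.eval (n : ℤ) ∧ (cn n : ℝ) < U).card : ℝ) +
      (((Ioc n₀ K).filter fun n : ℕ => 2 ∣ G.eval (n : ℤ) ∧ ¬ (cn n : ℝ) < U).card : ℝ) := by exact_mod_cast hc1
  have hK12 : (K : ℝ) / Real.log Y ≤ K / 12 := by gcongr
  have hc3 : (K : ℝ) / 4 ≤ (((Ioc n₀ K).filter fun n : ℕ => 2 ∣ G.eval (n : ℤ) ∧ ¬ (cn n : ℝ) < U).card : ℝ) := by linarith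
  rw [hswap]
  calc (K : ℝ) * Y / (24 * Real.log Y ^ 2) = K / 4 * U := by
        rw [hU]
        field_simp
        ring
    _ ≤ (((Ioc n₀ K).filter fun n : ℕ => 2 ∣ G.eval (n : ℤ) ∧ ¬ (cn n : ℝ) < U).card : ℝ) * U := mul_le_mul_of_nonneg_right hc3 hU0
    _ = ∑ n ∈ (Ioc n₀ K).filter (fun n : ℕ => 2 ∣ G.eval (n : ℤ) ∧ ¬ (cn n : ℝ) < U), U := by rw [sum_const, nsmul_eq_mul]
    _ ≤ ∑ n ∈ (Ioc n₀ K).filter (fun n : ℕ => 2 ∣ G.eval (n : ℤ) ∧ ¬ (cn n : ℝ) < U), (((Icc 1 Y).filter fun a : ℕ =>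
      ((a : ℤ) + F₁.eval (n : ℤ)).toNat.Prime ∧ ((a : ℤ) + F₂.eval (n : ℤ)).toNat.Prime).card : ℝ) := by
        refine sum_le_sum fun n hn => ?_
        obtain ⟨b1, b2, b3⟩ := mem_filter.1 hn
        exact (not_lt.1 b3).trans (Nat.cast_le.2 (hinj n b1))
    _ ≤ _ := by
        apply sum_le_sum_of_subset_of_nonneg (filter_subset _ _)
        intro i _ _
        exact Nat.cast_nonneg _

theorem cs (Y : ℕ) (hY : 1 ≤ Y) (f g : ℕ → ℝ) (V W : ℝ) (hV : 0 < V) (hW : 0 < W) (hf : ∀ a ∈ Icc 1 Y, 0 ≤ f a ∧ f a ≤ g a)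
    (h1 : 2 * (V * Y) ≤ ∑ a ∈ Icc 1 Y, f a) (h2 : ∑ a ∈ Icc 1 Y, g a ^ 2 ≤ W * Y) :
    V ^ 2 / W * Y ≤ (((Icc 1 Y).filter fun a => V ≤ f a).card : ℝ) := by
  obtain ⟨A, hA⟩ : ∃ A, A = (Icc 1 Y).filter fun a => V ≤ f a := ⟨_, rfl⟩
  rw [← hA]
  have hY0 : (0 : ℝ) < Y := by exact_mod_cast (by omega : 0 < Y)
  have s1 : ∑ a ∈ (Icc 1 Y).filter (fun a => ¬ V ≤ f a), f a ≤ V * Y := by
    calc ∑ a ∈ (Icc 1 Y).filter (fun a => ¬ V ≤ f a), f a ≤ ∑ a ∈ (Icc 1 Y).filter (fun a => ¬ V ≤ f a), V :=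
          sum_le_sum fun a ha => (not_le.1 (mem_filter.1 ha).2).le
      _ = (((Icc 1 Y).filter (fun a => ¬ V ≤ f a)).card : ℝ) * V := by rw [sum_const, nsmul_eq_mul]
      _ ≤ Y * V := by
          apply mul_le_mul_of_nonneg_right _ hV.le
          have h3 := card_filter_le (Icc 1 Y) (fun a => ¬ V ≤ f a)
          rw [Nat.card_Icc] at h3
          exact_mod_cast (by omega : ((Icc 1 Y).filter (fun a => ¬ V ≤ f a)).card ≤ Y)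
      _ = _ := mul_comm _ _
  have s2 := sum_filter_add_sum_filter_not (Icc 1 Y) (fun a => V ≤ f a) f
  rw [← hA] at s2
  have s3 : V * Y ≤ ∑ a ∈ A, f a := by linarith
  have hAs : A ⊆ Icc 1 Y := by rw [hA]; exact filter_subset _ _
  have s4 : (∑ a ∈ A, f a) ^ 2 ≤ A.card * ∑ a ∈ A, f a ^ 2 := sq_sum_le_card_mul_sum_sq
  have s5 : ∑ a ∈ A, f a ^ 2 ≤ W * Y := by
    refine le_trans ?_ h2
    calc ∑ a ∈ A, f a ^ 2 ≤ ∑ a ∈ A, g a ^ 2 := sum_le_sum fun a ha => pow_le_pow_left₀ (hf a (hAs ha)).1 (hf a (hAs ha)).2 2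
      _ ≤ _ := sum_le_sum_of_subset_of_nonneg hAs fun _ _ _ => sq_nonneg _
  have s6 : (V * Y) ^ 2 ≤ A.card * (W * Y) := by
    calc (V * Y) ^ 2 ≤ (∑ a ∈ A, f a) ^ 2 := pow_le_pow_left₀ (by positivity) s3 2
      _ ≤ _ := s4.trans (mul_le_mul_of_nonneg_left s5 (by positivity))
  rw [div_mul_eq_mul_div, div_le_iff₀ hW]
  have s7 : V ^ 2 * Y * Y ≤ A.card * W * Y := by
    calc V ^ 2 * Y * Y = (V * Y) ^ 2 := by ring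
      _ ≤ _ := s6
      _ = _ := by ring
  exact le_of_mul_le_mul_right s7 hY0

theorem big (d : ℕ) (hd : 1 ≤ d) : ∃ X₀ : ℕ, ∀ Y : ℕ, X₀ ≤ Y → ∀ K : ℕ, (Y : ℝ) ^ (1 / 3 : ℝ) ≤ (K : ℝ) ^ d →
    3 ≤ K ∧ Real.log Y ^ 2 ≤ K ∧ 2 * (Y : ℝ) ≤ Real.exp K := by
  have h1 : ∀ᶠ x : ℝ in atTop, Real.log x ^ (6 * d) ≤ x := by
    have := (Real.isLittleO_pow_log_id_atTop (n := 6 * d)).bound (show (0 : ℝ) < 1 by norm_num)
    filter_upwards [this, eventually_ge_atTop 1] with x hx hx1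
    rw [one_mul, Real.norm_eq_abs, Real.norm_eq_abs, id] at hx
    have h9 : |x| = x := abs_of_nonneg (by linarith)
    rw [h9] at hx
    exact (le_abs_self _).trans hx
  have h2 : ∀ᶠ Y : ℕ in atTop, Real.log (Y : ℝ) ^ (6 * d) ≤ Y ∧ (2 : ℝ) ≤ Real.log Y :=
    ((tendsto_natCast_atTop_atTop (R := ℝ)).eventually h1).and
      ((tendsto_natCast_atTop_atTop (R := ℝ)).eventually (Real.tendsto_log_atTop.eventually_ge_atTop _))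
  obtain ⟨X₀, hX⟩ := eventually_atTop.1 h2
  refine ⟨X₀ + 1, fun Y hY K hK => ?_⟩
  obtain ⟨h3, h4⟩ := hX Y (by omega)
  have hY0 : (0 : ℝ) < Y := by exact_mod_cast (by omega : 0 < Y)
  have hlK : Real.log Y ^ 2 ≤ K := by
    by_contra hcon
    push Not at hcon
    have h5 : (K : ℝ) ^ d < (Real.log Y ^ 2) ^ d := pow_lt_pow_left₀ hcon (Nat.cast_nonneg _) (by omega)
    have h6 : (Real.log Y ^ 2) ^ d ≤ (Y : ℝ) ^ (1 / 3 : ℝ) := by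
      have e1 : (Real.log Y ^ 2) ^ d = (((Real.log Y ^ 2) ^ d) ^ 3) ^ (((3 : ℕ) : ℝ)⁻¹) :=
        (Real.pow_rpow_inv_natCast (by positivity) (by norm_num)).symm
      rw [e1, show ((3 : ℕ) : ℝ)⁻¹ = 1 / 3 by norm_num]
      apply Real.rpow_le_rpow (by positivity) _ (by norm_num)
      rw [← pow_mul, ← pow_mul, show 2 * (d * 3) = 6 * d by ring]
      exact h3
    linarith
  refine ⟨?_, hlK, ?_⟩
  · have h5 : (3 : ℝ) ≤ K := by nlinarith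
    exact_mod_cast h5
  · have h5 : Real.log (2 * Y) ≤ K := by
      rw [Real.log_mul (by norm_num) hY0.ne']
      have : Real.log 2 ≤ 1 := by linarith [Real.log_two_lt_d9]
      nlinarith
    calc 2 * (Y : ℝ) = Real.exp (Real.log (2 * Y)) := (Real.exp_log (by positivity)).symm
      _ ≤ _ := Real.exp_le_exp.2 h5

theorem pp_le (F₁ F₂ : ℤ[X]) (n₀ K a : ℕ) (h : ∀ n : ℕ, n ∈ Ioc n₀ K → 1 ≤ (F₂ - F₁).eval (n : ℤ)) : pp F₁ F₂ n₀ K a ≤ pr F₁ F₂ K a := by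
  unfold pp pr NN
  apply card_le_card
  intro n hn
  rw [mem_filter] at hn
  have h1 := h n hn.1
  rw [mem_filter, mem_filter, mem_Icc]
  have h2 := mem_Ioc.1 hn.1
  refine ⟨⟨⟨by omega, h2.2⟩, ?_⟩, hn.2⟩
  intro h3
  rw [eval_sub, h3, sub_self] at h1
  omega

theorem core (D Λ d a : ℕ) (hd : 1 ≤ d) : ∃ B : ℕ, ∀ M : ℝ, 0 ≤ M → ∃ c : ℝ, 0 < c ∧ ∃ C X₀ : ℕ, ∀ Y : ℕ, X₀ ≤ Y →
    ∀ (F₁ F₂ : ℤ[X]) (n₀ K : ℕ), Ok D Λ Y K F₁ → Ok D Λ Y K F₂ →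
    (F₂ - F₁).natDegree = d → 1 ≤ (F₂ - F₁).leadingCoeff → ((F₂ - F₁).leadingCoeff : ℝ) ≤ Real.log Y ^ a →
    (Y : ℝ) ^ (1 / 3 : ℝ) * Real.log Y ^ C ≤ ((K - n₀ : ℕ) : ℝ) ^ d →
    (∀ n : ℕ, n ∈ Ioc n₀ K → 1 ≤ (F₂ - F₁).eval (n : ℤ) ∧ 8 * |F₁.eval (n : ℤ)| ≤ Y ∧ 8 * |F₂.eval (n : ℤ)| ≤ Y) →
    (K : ℝ) / 3 ≤ (((Ioc n₀ K).filter fun n : ℕ => 2 ∣ (F₂ - F₁).eval (n : ℤ)).card : ℝ) →
    ∑ n ∈ NN F₁ F₂ K, R B (F₁.eval (n : ℤ)) (F₂.eval (n : ℤ)) ≤ M * K →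
    ∀ f : ℕ → ℝ, (∀ a ∈ Icc 1 Y, 0 ≤ f a ∧ f a ≤ pp F₁ F₂ n₀ K a) →
    ∑ a ∈ Icc 1 Y, (pp F₁ F₂ n₀ K a : ℝ) - (K : ℝ) * Y / (48 * Real.log Y ^ 2) ≤ ∑ a ∈ Icc 1 Y, f a →
    c * Y ≤ (((Icc 1 Y).filter fun a => (K : ℝ) / (96 * Real.log Y ^ 2) ≤ f a).card : ℝ) := by
  obtain ⟨B, hB⟩ := second D Λ
  refine ⟨B, fun M hM => ?_⟩
  obtain ⟨C₂, hC₂, x₂, h2⟩ := hB M hM
  obtain ⟨C, X₁, h1⟩ := first d hd a
  obtain ⟨X₂, hbig⟩ := big d hd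
  refine ⟨1 / (96 ^ 2 * C₂), by positivity, C, X₁ + X₂ + x₂ + 16, ?_⟩
  intro Y hY F₁ F₂ n₀ K ok1 ok2 hdeg hlc hlca hK hval hpar hR f hf hsum
  have hY3 : (3 : ℝ) ≤ Y := by exact_mod_cast (by omega : 3 ≤ Y)
  have hlog : 1 ≤ Real.log Y := by
    rw [Real.le_log_iff_exp_le (by linarith)]
    linarith [Real.exp_one_lt_d9]
  have hKn : ((K - n₀ : ℕ) : ℝ) ≤ K := by exact_mod_cast Nat.sub_le K n₀
  have hYK : (Y : ℝ) ^ (1 / 3 : ℝ) ≤ (K : ℝ) ^ d := by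
    calc (Y : ℝ) ^ (1 / 3 : ℝ) = (Y : ℝ) ^ (1 / 3 : ℝ) * 1 := (mul_one _).symm
      _ ≤ (Y : ℝ) ^ (1 / 3 : ℝ) * Real.log Y ^ C := by
          apply mul_le_mul_of_nonneg_left (one_le_pow₀ hlog) (by positivity)
      _ ≤ _ := hK
      _ ≤ _ := pow_le_pow_left₀ (Nat.cast_nonneg _) hKn d
  obtain ⟨hK3, hlK, hxK⟩ := hbig Y (by omega) K hYK
  have hK0 : (0 : ℝ) < K := by exact_mod_cast (by omega : 0 < K)
  have hs := h2 Y (by omega) K hK3 hlK hxK F₁ F₂ ok1 ok2 hR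
  have hfirst := h1 Y (by omega) F₁ F₂ n₀ K hdeg hlc hlca hK (fun n hn => by
    obtain ⟨a1, a2, a3⟩ := hval n hn
    refine ⟨by linarith, ?_, a2⟩
    rw [eval_sub]
    have b1 := neg_abs_le (F₁.eval (n : ℤ))
    have b2 := le_abs_self (F₂.eval (n : ℤ))
    have b3 : (0 : ℤ) ≤ Y := Int.natCast_nonneg _
    linarith) hpar
  have hres := cs Y (by omega) f (fun a => (pr F₁ F₂ K a : ℝ)) (K / (96 * Real.log Y ^ 2)) (C₂ * (K : ℝ) ^ 2 / Real.log Y ^ 4)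
    (by positivity) (by positivity) (fun a ha => ⟨(hf a ha).1, (hf a ha).2.trans (by
      have := pp_le F₁ F₂ n₀ K a (fun n hn => (hval n hn).1)
      exact_mod_cast this)⟩) (by
      have e1 : (K : ℝ) * Y / (24 * Real.log Y ^ 2) = 2 * ((K : ℝ) * Y / (48 * Real.log Y ^ 2)) := by
        field_simp
        norm_num
      have e2 : 2 * (K / (96 * Real.log Y ^ 2) * Y) = (K : ℝ) * Y / (48 * Real.log Y ^ 2) := by
        field_simp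
        norm_num
      rw [e2]
      rw [e1] at hfirst
      linarith) (by
      refine hs.trans (le_of_eq ?_)
      field_simp)
  refine le_trans (le_of_eq ?_) hres
  field_simp

end Run7.h870.PQ
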