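import Pool.Agent.Run7.h870.PQ.Tr

/-!
# Consecutive prime values at a given distance
-/

set_option autoImplicit false
set_option linter.all false

namespace Run7.h870.PQ

open Finset Filter Polynomial
open Pool.Agent.H646 (rat)
open Pool.Agent.H646.TuplesM (rat_ge_one rat_nonneg)
open scoped Classical

theorem mono_ev (F : ℤ[X]) (hD : 2 ≤ F.natDegree) (hl : 1 ≤ F.leadingCoeff) : ∃ n₁ : ℕ, ∀ n : ℕ, n₁ < n → ∀ j : ℕ, 1 ≤ j →
    F.eval (n : ℤ) < F.eval ((n + j : ℕ) : ℤ) := by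
  obtain ⟨Q, hQ, hQd, hQl⟩ := diff_poly F hD 1 le_rfl
  have hDl : 1 ≤ Q.leadingCoeff := by
    rw [hQl]
    have : (1 : ℤ) ≤ F.natDegree := by exact_mod_cast (by omega : 1 ≤ F.natDegree)
    nlinarith
  obtain ⟨n₁, hn₁⟩ := pos_ev Q (by omega) hDl
  refine ⟨n₁, fun n hn j hj => ?_⟩
  have step : ∀ m : ℕ, n₁ < m → F.eval (m : ℤ) < F.eval ((m + 1 : ℕ) : ℤ) := by
    intro m hm
    have h1 := hQ (m : ℤ)
    have h2 := hn₁ m hm
    push_cast at h1 ⊢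
    linarith
  induction j, hj using Nat.le_induction with
  | base => exact step n hn
  | succ j hj ih =>
    have h3 := step (n + j) (by omega)
    rw [show n + (j + 1) = n + j + 1 by ring]
    exact ih.trans h3

/-- the arguments of consecutive prime values at the distance `h` -/
noncomputable def cons (F : ℤ[X]) (n₁ K h a : ℕ) : ℕ :=
  ((Ioc n₁ K).filter fun n : ℕ => (((a : ℤ) + F.eval (n : ℤ)).toNat.Prime ∧ ((a : ℤ) + F.eval ((n + h : ℕ) : ℤ)).toNat.Prime) ∧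
    ∀ j : ℕ, 0 < j → j < h → ¬ ((a : ℤ) + F.eval ((n + j : ℕ) : ℤ)).toNat.Prime).card

theorem pp_cons (F F₂ : ℤ[X]) (n₁ K h a : ℕ) (hF₂ : ∀ n : ℕ, F₂.eval (n : ℤ) = F.eval ((n + h : ℕ) : ℤ)) :
    cons F n₁ K h a ≤ pp F F₂ n₁ K a ∧ pp F F₂ n₁ K a ≤ cons F n₁ K h a + ∑ j ∈ Ioo 0 h, ((Ioc n₁ K).filter fun n : ℕ =>
      ((a : ℤ) + F.eval (n : ℤ)).toNat.Prime ∧ ((a : ℤ) + F.eval ((n + j : ℕ) : ℤ)).toNat.Prime ∧
        ((a : ℤ) + F.eval ((n + h : ℕ) : ℤ)).toNat.Prime).card := by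
  constructor
  · unfold cons pp
    apply card_le_card
    intro n hn
    rw [mem_filter] at hn ⊢
    rw [hF₂]
    exact ⟨hn.1, hn.2.1⟩
  · have hsub : ((Ioc n₁ K).filter fun n : ℕ => ((a : ℤ) + F.eval (n : ℤ)).toNat.Prime ∧ ((a : ℤ) + F₂.eval (n : ℤ)).toNat.Prime) ⊆
        ((Ioc n₁ K).filter fun n : ℕ => (((a : ℤ) + F.eval (n : ℤ)).toNat.Prime ∧ ((a : ℤ) + F.eval ((n + h : ℕ) : ℤ)).toNat.Prime) ∧
          ∀ j : ℕ, 0 < j → j < h → ¬ ((a : ℤ) + F.eval ((n + j : ℕ) : ℤ)).toNat.Prime) ∪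
        (Ioo 0 h).biUnion (fun j => (Ioc n₁ K).filter fun n : ℕ =>
          ((a : ℤ) + F.eval (n : ℤ)).toNat.Prime ∧ ((a : ℤ) + F.eval ((n + j : ℕ) : ℤ)).toNat.Prime ∧
            ((a : ℤ) + F.eval ((n + h : ℕ) : ℤ)).toNat.Prime) := by
      intro n hn
      rw [mem_filter, hF₂] at hn
      rw [mem_union, mem_filter, mem_biUnion]
      by_cases hc : ∀ j : ℕ, 0 < j → j < h → ¬ ((a : ℤ) + F.eval ((n + j : ℕ) : ℤ)).toNat.Prime
      · left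
        exact ⟨hn.1, hn.2, hc⟩
      · right
        push Not at hc
        obtain ⟨j, h1, h2, h3⟩ := hc
        exact ⟨j, by rw [mem_Ioo]; exact ⟨h1, h2⟩, by rw [mem_filter]; exact ⟨hn.1, hn.2.1, h3, hn.2.2⟩⟩
    unfold pp cons
    exact (card_le_card hsub).trans ((card_union_le _ _).trans (Nat.add_le_add_left card_biUnion_le _))

/-- **consecutive prime values at a given distance** -/
theorem gaps (F : ℤ[X]) (hD : 2 ≤ F.natDegree) (hl : 1 ≤ F.leadingCoeff) (T : ℝ) (hT : 1 ≤ T) : ∃ c : ℝ, 0 < c ∧ ∃ C X₀ : ℕ,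
    ∀ X K h : ℕ, X₀ ≤ X → (X : ℝ) ^ (1 / 3 : ℝ) * Real.log X ^ C ≤ (K : ℝ) ^ (F.natDegree - 1) → (K : ℝ) ^ F.natDegree ≤ c * X →
      1 ≤ h → (h : ℝ) ≤ c * Real.log X → rat h ≤ T → (∃ n : ℤ, 2 ∣ F.eval (n + h) - F.eval n) →
      c * X ≤ (((Icc 1 X).filter fun a : ℕ => c * K / Real.log X ^ 2 ≤
        (((Icc 1 K).filter fun n : ℕ => (((a : ℤ) + F.eval (n : ℤ)).toNat.Prime ∧ ((a : ℤ) + F.eval ((n + h : ℕ) : ℤ)).toNat.Prime) ∧
          ∀ j : ℕ, 0 < j → j < h → ¬ ((a : ℤ) + F.eval ((n + j : ℕ) : ℤ)).toNat.Prime).card : ℝ)).card : ℝ) := by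
  obtain ⟨D, hDD⟩ : ∃ D, D = F.natDegree := ⟨_, rfl⟩
  obtain ⟨Λ, hΛ⟩ : ∃ Λ, Λ = F.leadingCoeff.natAbs := ⟨_, rfl⟩
  obtain ⟨B, hB⟩ := core D Λ (D - 1) 2 (by omega)
  obtain ⟨Ca, hCa, hav⟩ := shift_avg F hD hl B
  obtain ⟨c₀, hc₀, C, X₁, hcore⟩ := hB (T ^ B * Ca) (by positivity)
  obtain ⟨C₁, hC₁, hv1⟩ := val_le F D hDD.ge
  obtain ⟨n₁, hn₁⟩ := mono_ev F hD hl
  obtain ⟨X₂, hbig⟩ := big (D - 1) (by omega)
  obtain ⟨Ct, hCt, x₃, htri⟩ := triples F hD hl T hT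
  have hev : ∀ᶠ Y : ℕ in atTop, ((2 : ℝ) ^ (D - 1) + D * F.leadingCoeff + 3 * (n₁ + 1)) ≤ Real.log Y :=
    (tendsto_natCast_atTop_atTop (R := ℝ)).eventually (Real.tendsto_log_atTop.eventually_ge_atTop _)
  obtain ⟨X₃, hX₃⟩ := eventually_atTop.1 hev
  have hC1r : (1 : ℝ) ≤ C₁ := by exact_mod_cast hC₁
  obtain ⟨c, hc⟩ : ∃ c : ℝ, c = min (min (1 / 96) (1 / (48 * Ct))) (min c₀ (1 / (8 * (C₁ * 3 ^ D)))) := ⟨_, rfl⟩
  have hc00 : 0 < c := by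
    rw [hc]
    have : (0 : ℝ) < C₁ := by linarith
    positivity
  have hc1 : c ≤ 1 / 96 := by rw [hc]; exact (min_le_left _ _).trans (min_le_left _ _)
  have hc4 : c ≤ 1 / (48 * Ct) := by rw [hc]; exact (min_le_left _ _).trans (min_le_right _ _)
  have hc2 : c ≤ c₀ := by rw [hc]; exact (min_le_right _ _).trans (min_le_left _ _)
  have hc3 : c ≤ 1 / (8 * (C₁ * 3 ^ D)) := by rw [hc]; exact (min_le_right _ _).trans (min_le_right _ _)
  refine ⟨c, hc00, C + 1, X₁ + X₂ + X₃ + x₃ + 16, ?_⟩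
  intro X K h hX hK hKD hh hhc hrat hpar
  rw [← hDD] at hK hKD
  have hX0 : (0 : ℝ) < X := by exact_mod_cast (by omega : 0 < X)
  have hL := hX₃ X (by omega)
  have hlr : (1 : ℝ) ≤ (F.leadingCoeff : ℝ) := by exact_mod_cast hl
  have h2d : (1 : ℝ) ≤ 2 ^ (D - 1) := one_le_pow₀ (by norm_num)
  have hn0 : (0 : ℝ) ≤ n₁ := Nat.cast_nonneg _
  have hDr : (0 : ℝ) ≤ D := Nat.cast_nonneg _
  have hDl0 : 0 ≤ (D : ℝ) * F.leadingCoeff := by positivity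
  have hlog : 1 ≤ Real.log X := by linarith
  have hYK : (X : ℝ) ^ (1 / 3 : ℝ) ≤ (K : ℝ) ^ (D - 1) := by
    calc (X : ℝ) ^ (1 / 3 : ℝ) = (X : ℝ) ^ (1 / 3 : ℝ) * 1 := (mul_one _).symm
      _ ≤ (X : ℝ) ^ (1 / 3 : ℝ) * Real.log X ^ (C + 1) := by
          apply mul_le_mul_of_nonneg_left (one_le_pow₀ hlog) (by positivity)
      _ ≤ _ := hK
  obtain ⟨hK3, hlK, hxK⟩ := hbig X (by omega) K hYK
  have hKr : (3 : ℝ) ≤ K := by exact_mod_cast hK3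
  have hlK1 : Real.log X ≤ K := by nlinarith
  have hKn : 3 * (n₁ + 1) ≤ K := by
    have h4 : (3 * ((n₁ : ℝ) + 1)) ≤ K := by linarith
    exact_mod_cast h4
  have hhK : h ≤ K := by
    have h4 : (h : ℝ) ≤ K := by nlinarith
    exact_mod_cast h4
  have hval : ∀ m ∈ Icc 1 (3 * K), 8 * |F.eval ((m : ℕ) : ℤ)| ≤ X := by
    intro m hm
    rw [mem_Icc] at hm
    have h3 : 8 * ((C₁ : ℝ) * (m : ℝ) ^ D) ≤ X := by
      have h5 : (m : ℝ) ^ D ≤ 3 ^ D * (K : ℝ) ^ D := by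
        rw [← mul_pow]
        exact pow_le_pow_left₀ (Nat.cast_nonneg _) (by exact_mod_cast hm.2) D
      calc 8 * ((C₁ : ℝ) * (m : ℝ) ^ D) ≤ 8 * ((C₁ : ℝ) * (3 ^ D * (c * X))) := by
            have : (m : ℝ) ^ D ≤ 3 ^ D * (c * X) := h5.trans (mul_le_mul_of_nonneg_left hKD (by positivity))
            gcongr
        _ = 8 * (C₁ * 3 ^ D) * c * X := by ring
        _ ≤ 8 * (C₁ * 3 ^ D) * (1 / (8 * (C₁ * 3 ^ D))) * X := by gcongr
        _ = X := by field_simp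
    have h4 := hv1 m hm.1
    have h5 : ((|F.eval ((m : ℕ) : ℤ)| : ℤ) : ℝ) ≤ C₁ * (m : ℝ) ^ D := by exact_mod_cast h4
    have h6 : 8 * ((|F.eval ((m : ℕ) : ℤ)| : ℤ) : ℝ) ≤ X := by linarith
    exact_mod_cast h6
  have hval1 : ∀ m ∈ Icc 1 (3 * K), |F.eval ((m : ℕ) : ℤ)| ≤ X := by
    intro m hm
    have := hval m hm
    have := abs_nonneg (F.eval ((m : ℕ) : ℤ))
    omega
  -- the second polynomial
  obtain ⟨Q, hQ, hQd, hQl⟩ := diff_poly F hD h hh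
  obtain ⟨F₂, hF₂⟩ : ∃ F₂ : ℤ[X], F₂ = taylor (h : ℤ) F := ⟨_, rfl⟩
  have hF₂e : ∀ n : ℤ, F₂.eval n = F.eval (n + h) := fun n => by rw [hF₂, taylor_eval]
  have hF₂n : ∀ n : ℕ, F₂.eval (n : ℤ) = F.eval ((n + h : ℕ) : ℤ) := fun n => by rw [hF₂e]; push_cast; rfl
  have hF₂d : F₂.natDegree = D := by rw [hF₂, natDegree_taylor, hDD]
  have hF₂l : F₂.leadingCoeff = F.leadingCoeff := by rw [hF₂, leadingCoeff_taylor]
  have hG : F₂ - F = Polynomial.C (h : ℤ) * Q := by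
    apply Polynomial.funext
    intro n
    rw [eval_sub, eval_mul, eval_C, hF₂e, hQ]
  have hh0 : (h : ℤ) ≠ 0 := by exact_mod_cast (by omega : h ≠ 0)
  have hGd : (F₂ - F).natDegree = D - 1 := by rw [hG, natDegree_C_mul hh0, hQd, hDD]
  have hGl : (F₂ - F).leadingCoeff = h * (D * F.leadingCoeff) := by
    rw [hG, leadingCoeff_mul, leadingCoeff_C, hQl, hDD]
  have hGl1 : 1 ≤ (F₂ - F).leadingCoeff := by
    rw [hGl]
    have b1 : (1 : ℤ) ≤ h := by exact_mod_cast hh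
    have b2 : (1 : ℤ) ≤ D := by exact_mod_cast (by omega : 1 ≤ D)
    have b3 : (1 : ℤ) ≤ D * F.leadingCoeff := by nlinarith
    nlinarith
  have hGl2 : ((F₂ - F).leadingCoeff : ℝ) ≤ Real.log X ^ 2 := by
    rw [hGl]
    push_cast
    have b1 : (h : ℝ) ≤ Real.log X := by nlinarith
    have b2 : (D : ℝ) * F.leadingCoeff ≤ Real.log X := by linarith
    calc (h : ℝ) * (D * F.leadingCoeff) ≤ Real.log X * Real.log X := mul_le_mul b1 b2 hDl0 (by linarith)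
      _ = _ := by ring
  have hIoc : ∀ n : ℕ, n ∈ Ioc n₁ K → n ∈ Icc 1 (3 * K) ∧ n + h ∈ Icc 1 (3 * K) := fun n hn => by
    rw [mem_Ioc] at hn
    rw [mem_Icc, mem_Icc]
    omega
  have hvals : ∀ n : ℕ, n ∈ Ioc n₁ K → 1 ≤ (F₂ - F).eval (n : ℤ) ∧ 8 * |F.eval (n : ℤ)| ≤ X ∧ 8 * |F₂.eval (n : ℤ)| ≤ X := by
    intro n hn
    refine ⟨?_, hval n (hIoc n hn).1, ?_⟩
    · rw [eval_sub, hF₂n]
      have := hn₁ n (mem_Ioc.1 hn).1 h hh
      omega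
    · rw [hF₂n]
      exact hval (n + h) (hIoc n hn).2
  have hR : ∑ n ∈ NN F F₂ K, R B (F.eval (n : ℤ)) (F₂.eval (n : ℤ)) ≤ T ^ B * Ca * K := by
    have h3 := hav K hK3 h hh (by
      intro m hm
      refine le_trans ?_ hxK
      have h4 := hval1 m (by rw [mem_Icc] at hm ⊢; omega)
      have h6 : ((|F.eval ((m : ℕ) : ℤ)| : ℤ) : ℝ) ≤ X := by exact_mod_cast h4
      linarith)
    have h4 : ∑ n ∈ NN F F₂ K, R B (F.eval (n : ℤ)) (F₂.eval (n : ℤ)) =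
        ∑ n ∈ (Icc 1 K).filter (fun n : ℕ => F.eval (n : ℤ) ≠ F.eval ((n + h : ℕ) : ℤ)), R B (F.eval (n : ℤ)) (F.eval ((n + h : ℕ) : ℤ)) := by
      apply sum_congr
      · ext n
        unfold NN
        rw [mem_filter, mem_filter, hF₂n]
      · intro n _
        rw [hF₂n]
    rw [h4]
    refine h3.trans ?_
    calc rat h ^ B * (Ca * K) ≤ T ^ B * (Ca * K) := by
          apply mul_le_mul_of_nonneg_right _ (by positivity)
          exact pow_le_pow_left₀ (rat_nonneg _) hrat B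
      _ = _ := by ring
  have htr := htri X (by omega) n₁ K h hK3 hhK hh hrat hxK hn₁ hval1
  have hsumle : ∑ a ∈ Icc 1 X, (pp F F₂ n₁ K a : ℝ) - (K : ℝ) * X / (48 * Real.log X ^ 2) ≤ ∑ a ∈ Icc 1 X, (cons F n₁ K h a : ℝ) := by
    have e1 : ∀ a ∈ Icc 1 X, (pp F F₂ n₁ K a : ℝ) ≤ (cons F n₁ K h a : ℝ) + ∑ j ∈ Ioo 0 h, ∑ n ∈ Ioc n₁ K,
        (if ((a : ℤ) + F.eval (n : ℤ)).toNat.Prime ∧ ((a : ℤ) + F.eval ((n + j : ℕ) : ℤ)).toNat.Prime ∧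
        ((a : ℤ) + F.eval ((n + h : ℕ) : ℤ)).toNat.Prime then (1 : ℝ) else 0) := by
      intro a _
      have h4 := (pp_cons F F₂ n₁ K h a hF₂n).2
      have h5 : (pp F F₂ n₁ K a : ℝ) ≤ (cons F n₁ K h a : ℝ) + ∑ j ∈ Ioo 0 h, (((Ioc n₁ K).filter fun n : ℕ =>
        ((a : ℤ) + F.eval (n : ℤ)).toNat.Prime ∧ ((a : ℤ) + F.eval ((n + j : ℕ) : ℤ)).toNat.Prime ∧
        ((a : ℤ) + F.eval ((n + h : ℕ) : ℤ)).toNat.Prime).card : ℝ) := by exact_mod_cast h4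
      refine h5.trans (le_of_eq ?_)
      congr 1
      refine sum_congr rfl fun j _ => ?_
      rw [sum_boole]
    have e2 := sum_le_sum e1
    rw [sum_add_distrib] at e2
    have e3 : ∑ a ∈ Icc 1 X, ∑ j ∈ Ioo 0 h, ∑ n ∈ Ioc n₁ K,
        (if ((a : ℤ) + F.eval (n : ℤ)).toNat.Prime ∧ ((a : ℤ) + F.eval ((n + j : ℕ) : ℤ)).toNat.Prime ∧
        ((a : ℤ) + F.eval ((n + h : ℕ) : ℤ)).toNat.Prime then (1 : ℝ) else 0) ≤ Ct * (h * K * X / Real.log X ^ 3) := by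
      refine le_trans (le_of_eq ?_) htr
      rw [sum_comm]
      refine sum_congr rfl fun j _ => ?_
      rw [sum_comm]
      refine sum_congr rfl fun n _ => ?_
      rw [sum_boole]
    have e4 : Ct * (h * K * X / Real.log X ^ 3) ≤ (K : ℝ) * X / (48 * Real.log X ^ 2) := by
      have e5 : Ct * (h : ℝ) ≤ Real.log X / 48 := by
        calc Ct * (h : ℝ) ≤ Ct * (1 / (48 * Ct) * Real.log X) := by
              apply mul_le_mul_of_nonneg_left _ hCt.le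
              refine hhc.trans ?_
              apply mul_le_mul_of_nonneg_right hc4 (by linarith)
          _ = _ := by field_simp
      calc Ct * (h * K * X / Real.log X ^ 3) = (Ct * h) * (K * X / Real.log X ^ 3) := by ring
        _ ≤ (Real.log X / 48) * (K * X / Real.log X ^ 3) := by gcongr
        _ = _ := by field_simp
    linarith
  have hres := hcore X (by omega) F F₂ n₁ K ⟨by omega, hDD.ge, hΛ.ge, fun n hn => hval1 n (by rw [mem_Icc] at hn ⊢; omega)⟩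
    ⟨by omega, hF₂d.le, by rw [hF₂l]; exact hΛ.ge, fun n hn => by rw [hF₂n]; exact hval1 (n + h) (by rw [mem_Icc] at hn ⊢; omega)⟩
    hGd hGl1 hGl2 (len (by positivity) (by linarith) hKn hK) hvals (par _ (by
      obtain ⟨m, hm⟩ := hpar
      exact ⟨m, by rw [eval_sub, hF₂e]; exact hm⟩) n₁ K hKn) hR
    (fun a => (cons F n₁ K h a : ℝ)) (fun a _ => ⟨Nat.cast_nonneg _, by exact_mod_cast (pp_cons F F₂ n₁ K h a hF₂n).1⟩) hsumle
  have hcX : c * X ≤ c₀ * X := mul_le_mul_of_nonneg_right hc2 hX0.le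
  refine hcX.trans (hres.trans ?_)
  rw [Nat.cast_le]
  apply card_le_card
  intro a ha
  rw [mem_filter] at ha ⊢
  refine ⟨ha.1, ?_⟩
  have h3 : c * K / Real.log X ^ 2 ≤ (K : ℝ) / (96 * Real.log X ^ 2) := by
    calc c * K / Real.log X ^ 2 ≤ 1 / 96 * K / Real.log X ^ 2 := by gcongr
      _ = _ := by field_simp
  refine h3.trans (ha.2.trans ?_)
  rw [Nat.cast_le]
  unfold cons
  apply card_le_card
  intro n hn
  rw [mem_filter] at hn ⊢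
  refine ⟨?_, hn.2⟩
  have := mem_Ioc.1 hn.1
  rw [mem_Icc]
  omega

end Run7.h870.PQ
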