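import Pool.Agent.Run7.h870.PQ.Tw

/-!
# Triples of primes
-/

set_option autoImplicit false
set_option linter.all false

namespace Run7.h870.PQ

open Finset Filter Polynomial
open Pool.Agent.H646 (rat)
open Pool.Agent.H646.TuplesM (rat_ge_one rat_nonneg)
open Pool.Agent.H646.MomentM (rat_moment)
open scoped Classical

theorem rat_mul (m n : ℕ) (hm : 1 ≤ m) (hn : 1 ≤ n) : rat (m * n) ≤ rat m * rat n := by
  unfold rat
  have h1 := Nat.totient_super_multiplicative m n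
  have h2 : 0 < m.totient := Nat.totient_pos.2 (by omega)
  have h3 : 0 < n.totient := Nat.totient_pos.2 (by omega)
  have h4 : (0 : ℝ) < m.totient := by exact_mod_cast h2
  have h5 : (0 : ℝ) < n.totient := by exact_mod_cast h3
  rw [div_mul_div_comm]
  push_cast
  apply div_le_div_of_nonneg_left (by positivity) (by positivity)
  exact_mod_cast h1

theorem ps3 (B : ℕ) (a b c : ℤ) : ps B ![a, b, c] = 2 * (R B a b + R B a c + R B b c) := by
  have e : ps B ![a, b, c] = (R B a b + R B a c) + (R B b a + R B b c) + (R B c a + R B c b) := by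
    unfold ps R
    simp [Fin.sum_univ_three]
  rw [e, R_comm B b a, R_comm B c a, R_comm B c b]
  ring

theorem inj3 {a b c : ℤ} (h1 : a ≠ b) (h2 : a ≠ c) (h3 : b ≠ c) : Function.Injective ![a, b, c] := by
  intro i j hij
  fin_cases i <;> fin_cases j <;> simp_all

/-- the averages over the differences -/
theorem shift_avg (F : ℤ[X]) (hD : 2 ≤ F.natDegree) (hl : 1 ≤ F.leadingCoeff) (B : ℕ) : ∃ C : ℝ, 0 < C ∧ ∀ K : ℕ, 3 ≤ K →
    ∀ j : ℕ, 1 ≤ j → (∀ m ∈ Icc 1 (K + j), 2 * ((|F.eval ((m : ℕ) : ℤ)| : ℤ) : ℝ) ≤ Real.exp K) →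
    ∑ n ∈ (Icc 1 K).filter (fun n : ℕ => F.eval (n : ℤ) ≠ F.eval ((n + j : ℕ) : ℤ)), R B (F.eval (n : ℤ)) (F.eval ((n + j : ℕ) : ℤ)) ≤
      rat j ^ B * (C * K) := by
  obtain ⟨C, hC, hav⟩ := avg (F.natDegree - 1) (F.natDegree * F.leadingCoeff).natAbs B
  refine ⟨C, hC, fun K hK j hj hval => ?_⟩
  obtain ⟨Q, hQ, hQd, hQl⟩ := diff_poly F hD j hj
  have hj0 : (j : ℤ) ≠ 0 := by exact_mod_cast (by omega : j ≠ 0)
  have hDl : (F.natDegree : ℤ) * F.leadingCoeff ≠ 0 := mul_ne_zero (by exact_mod_cast (by omega : F.natDegree ≠ 0)) (by omega)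
  have hdiff : ∀ n : ℕ, F.eval ((n + j : ℕ) : ℤ) - F.eval (n : ℤ) = j * Q.eval (n : ℤ) := by
    intro n
    rw [← hQ (n : ℤ)]
    push_cast
    ring
  have h1 := hav K hK Q hQd.le (by rw [hQl]; exact hDl) (by rw [hQl]) (by
    intro n hn
    rw [mem_Icc] at hn
    have a1 := hval n (by rw [mem_Icc]; omega)
    have a2 := hval (n + j) (by rw [mem_Icc]; omega)
    have a3 : |Q.eval (n : ℤ)| ≤ |F.eval ((n + j : ℕ) : ℤ)| + |F.eval (n : ℤ)| := by
      calc |Q.eval (n : ℤ)| ≤ |(j : ℤ)| * |Q.eval (n : ℤ)| := by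
            apply le_mul_of_one_le_left (abs_nonneg _)
            exact Int.one_le_abs hj0
        _ = |F.eval ((n + j : ℕ) : ℤ) - F.eval (n : ℤ)| := by rw [hdiff, abs_mul]
        _ ≤ _ := abs_sub _ _
    have a4 : ((Q.eval (n : ℤ)).natAbs : ℝ) = ((|Q.eval (n : ℤ)| : ℤ) : ℝ) := by
      rw [← Int.natCast_natAbs]
      simp
    rw [a4]
    have a5 : ((|Q.eval (n : ℤ)| : ℤ) : ℝ) ≤ ((|F.eval ((n + j : ℕ) : ℤ)| : ℤ) : ℝ) + ((|F.eval (n : ℤ)| : ℤ) : ℝ) := by exact_mod_cast a3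
    linarith)
  have hr0 : 0 ≤ rat j ^ B := pow_nonneg (rat_nonneg _) _
  refine le_trans ?_ (mul_le_mul_of_nonneg_left h1 hr0)
  rw [mul_sum]
  have hset : (Icc 1 K).filter (fun n : ℕ => F.eval (n : ℤ) ≠ F.eval ((n + j : ℕ) : ℤ)) = (Icc 1 K).filter (fun n : ℕ => Q.eval (n : ℤ) ≠ 0) := by
    apply filter_congr
    intro n _
    have h2 := hdiff n
    constructor
    · intro h3 h4
      rw [h4, mul_zero] at h2
      exact h3 (by linarith)
    · intro h3 h4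
      rw [h4, sub_self] at h2
      exact (mul_ne_zero hj0 h3) h2.symm
  rw [hset]
  refine sum_le_sum fun n hn => ?_
  have hQ0 := (mem_filter.1 hn).2
  unfold R
  rw [hdiff, Int.natAbs_mul, Int.natAbs_natCast, ← mul_pow]
  apply pow_le_pow_left₀ (rat_nonneg _)
  exact rat_mul _ _ hj (Int.natAbs_pos.2 hQ0)

/-- the average of the three functions -/
theorem three_avg (F : ℤ[X]) (hD : 2 ≤ F.natDegree) (hl : 1 ≤ F.leadingCoeff) (B : ℕ) (T : ℝ) (hT : 1 ≤ T) : ∃ C : ℝ, 0 < C ∧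
    ∀ n₁ K h : ℕ, 3 ≤ K → h ≤ K → 1 ≤ h → rat h ≤ T → (∀ n : ℕ, n₁ < n → ∀ j : ℕ, 1 ≤ j → F.eval (n : ℤ) < F.eval ((n + j : ℕ) : ℤ)) →
    (∀ m ∈ Icc 1 (3 * K), 2 * ((|F.eval ((m : ℕ) : ℤ)| : ℤ) : ℝ) ≤ Real.exp K) →
    ∑ j ∈ Ioo 0 h, ∑ n ∈ Ioc n₁ K, 2 * (R B (F.eval (n : ℤ)) (F.eval ((n + j : ℕ) : ℤ)) + R B (F.eval (n : ℤ)) (F.eval ((n + h : ℕ) : ℤ)) +
      R B (F.eval ((n + j : ℕ) : ℤ)) (F.eval ((n + h : ℕ) : ℤ))) ≤ C * (h * K) := by
  obtain ⟨Ca, hCa, hav⟩ := shift_avg F hD hl B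
  obtain ⟨Cb, hCb, hmom⟩ := rat_moment B
  refine ⟨2 * (Cb * Ca + T ^ B * Ca + Cb * (2 * Ca)), by positivity, ?_⟩
  intro n₁ K h hK hhK hh hrat hmono hval
  have hK0 : (0 : ℝ) ≤ K := Nat.cast_nonneg _
  have s1 : ∀ j ∈ Ioo 0 h, ∑ n ∈ Ioc n₁ K, R B (F.eval (n : ℤ)) (F.eval ((n + j : ℕ) : ℤ)) ≤ rat j ^ B * (Ca * K) := by
    intro j hj
    rw [mem_Ioo] at hj
    refine le_trans ?_ (hav K hK j (by omega) (fun m hm => hval m (by rw [mem_Icc] at hm ⊢; omega)))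
    apply sum_le_sum_of_subset_of_nonneg
    · intro n hn
      rw [mem_Ioc] at hn
      rw [mem_filter, mem_Icc]
      exact ⟨by omega, (hmono n hn.1 j (by omega)).ne⟩
    · intro i _ _
      exact R_nonneg _ _ _
  have s2 : ∑ n ∈ Ioc n₁ K, R B (F.eval (n : ℤ)) (F.eval ((n + h : ℕ) : ℤ)) ≤ T ^ B * (Ca * K) := by
    have h1 : ∑ n ∈ Ioc n₁ K, R B (F.eval (n : ℤ)) (F.eval ((n + h : ℕ) : ℤ)) ≤ rat h ^ B * (Ca * K) := by
      refine le_trans ?_ (hav K hK h (by omega) (fun m hm => hval m (by rw [mem_Icc] at hm ⊢; omega)))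
      apply sum_le_sum_of_subset_of_nonneg
      · intro n hn
        rw [mem_Ioc] at hn
        rw [mem_filter, mem_Icc]
        exact ⟨by omega, (hmono n hn.1 h (by omega)).ne⟩
      · intro i _ _
        exact R_nonneg _ _ _
    refine h1.trans ?_
    apply mul_le_mul_of_nonneg_right _ (by positivity)
    exact pow_le_pow_left₀ (rat_nonneg _) hrat B
  have s3 : ∀ j ∈ Ioo 0 h, ∑ n ∈ Ioc n₁ K, R B (F.eval ((n + j : ℕ) : ℤ)) (F.eval ((n + h : ℕ) : ℤ)) ≤ rat (h - j) ^ B * (Ca * (2 * K)) := by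
    intro j hj
    rw [mem_Ioo] at hj
    have h1 := hav (2 * K) (by omega) (h - j) (by omega) (fun m hm => by
      refine (hval m (by rw [mem_Icc] at hm ⊢; omega)).trans (Real.exp_le_exp.2 ?_)
      push_cast
      linarith)
    push_cast at h1
    refine le_trans ?_ h1
    have e : ∑ n ∈ Ioc n₁ K, R B (F.eval ((n + j : ℕ) : ℤ)) (F.eval ((n + h : ℕ) : ℤ)) =
        ∑ m ∈ (Ioc n₁ K).image (fun n => n + j), R B (F.eval (m : ℤ)) (F.eval ((m : ℤ) + ((h - j : ℕ) : ℤ))) := by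
      rw [sum_image (fun a _ b _ hab => by simpa using hab)]
      refine sum_congr rfl fun n _ => ?_
      congr 2
      push_cast [Nat.cast_sub hj.2.le]
      ring
    rw [e]
    apply sum_le_sum_of_subset_of_nonneg
    · intro m hm
      rw [mem_image] at hm
      obtain ⟨n, hn, rfl⟩ := hm
      rw [mem_Ioc] at hn
      rw [mem_filter, mem_Icc]
      refine ⟨by omega, ?_⟩
      have h2 := hmono (n + j) (by omega) (h - j) (by omega)
      push_cast at h2 ⊢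
      exact h2.ne
    · intro i _ _
      exact R_nonneg _ _ _
  have m1 : ∑ j ∈ Ioo 0 h, rat j ^ B ≤ Cb * h := by
    refine le_trans (sum_le_sum_of_subset_of_nonneg ?_ fun i _ _ => pow_nonneg (rat_nonneg _) _) (hmom h)
    intro j hj
    rw [mem_Ioo] at hj
    rw [mem_Icc]
    omega
  have m2 : ∑ j ∈ Ioo 0 h, rat (h - j) ^ B ≤ Cb * h := by
    refine le_trans (le_of_eq ?_) m1
    apply sum_nbij' (fun j => h - j) (fun j => h - j)
    · intro j hj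
      rw [mem_Ioo] at hj ⊢
      omega
    · intro j hj
      rw [mem_Ioo] at hj ⊢
      omega
    · intro j hj
      rw [mem_Ioo] at hj
      omega
    · intro j hj
      rw [mem_Ioo] at hj
      omega
    · intro j _
      rfl
  have m3 : ((Ioo 0 h).card : ℝ) ≤ h := by
    rw [Nat.card_Ioo]
    exact_mod_cast (by omega : h - 0 - 1 ≤ h)
  have hTB : 0 ≤ T ^ B * (Ca * K) := by positivity
  calc ∑ j ∈ Ioo 0 h, ∑ n ∈ Ioc n₁ K, 2 * (R B (F.eval (n : ℤ)) (F.eval ((n + j : ℕ) : ℤ)) + R B (F.eval (n : ℤ)) (F.eval ((n + h : ℕ) : ℤ)) +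
        R B (F.eval ((n + j : ℕ) : ℤ)) (F.eval ((n + h : ℕ) : ℤ)))
      ≤ ∑ j ∈ Ioo 0 h, 2 * (rat j ^ B * (Ca * K) + T ^ B * (Ca * K) + rat (h - j) ^ B * (Ca * (2 * K))) := by
        refine sum_le_sum fun j hj => ?_
        rw [← mul_sum, sum_add_distrib, sum_add_distrib]
        have := s1 j hj
        have := s3 j hj
        linarith
    _ = 2 * ((∑ j ∈ Ioo 0 h, rat j ^ B) * (Ca * K) + ((Ioo 0 h).card : ℝ) * (T ^ B * (Ca * K)) + (∑ j ∈ Ioo 0 h, rat (h - j) ^ B) * (Ca * (2 * K))) := by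
        rw [← mul_sum, sum_add_distrib, sum_add_distrib, sum_const, nsmul_eq_mul, ← sum_mul, ← sum_mul]
    _ ≤ 2 * ((Cb * h) * (Ca * K) + h * (T ^ B * (Ca * K)) + (Cb * h) * (Ca * (2 * K))) := by gcongr
    _ = _ := by ring

/-- **the triples of primes** -/
theorem triples (F : ℤ[X]) (hD : 2 ≤ F.natDegree) (hl : 1 ≤ F.leadingCoeff) (T : ℝ) (hT : 1 ≤ T) : ∃ C : ℝ, 0 < C ∧
    ∃ x₀ : ℕ, ∀ Y : ℕ, x₀ ≤ Y → ∀ n₁ K h : ℕ, 3 ≤ K → h ≤ K → 1 ≤ h → rat h ≤ T → 2 * (Y : ℝ) ≤ Real.exp K →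
    (∀ n : ℕ, n₁ < n → ∀ j : ℕ, 1 ≤ j → F.eval (n : ℤ) < F.eval ((n + j : ℕ) : ℤ)) →
    (∀ m ∈ Icc 1 (3 * K), |F.eval ((m : ℕ) : ℤ)| ≤ Y) →
    ∑ j ∈ Ioo 0 h, ∑ n ∈ Ioc n₁ K, (((Icc 1 Y).filter fun a : ℕ => ((a : ℤ) + F.eval (n : ℤ)).toNat.Prime ∧
      ((a : ℤ) + F.eval ((n + j : ℕ) : ℤ)).toNat.Prime ∧ ((a : ℤ) + F.eval ((n + h : ℕ) : ℤ)).toNat.Prime).card : ℝ) ≤
        C * (h * K * Y / Real.log Y ^ 3) := by
  obtain ⟨C₃, hC₃, B, x₃, h3⟩ := up_inj 3 (by norm_num)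
  obtain ⟨Ct, hCt, hthree⟩ := three_avg F hD hl B T hT
  refine ⟨C₃ * Ct, by positivity, x₃ + 3, ?_⟩
  intro Y hY n₁ K h hK hhK hh hrat hYK hmono hval
  have hY3 : (3 : ℝ) ≤ Y := by exact_mod_cast (by omega : 3 ≤ Y)
  have hlog : 1 ≤ Real.log Y := by
    rw [Real.le_log_iff_exp_le (by linarith)]
    linarith [Real.exp_one_lt_d9]
  have h4 := hthree n₁ K h hK hhK hh hrat hmono (fun m hm => by
    refine le_trans ?_ hYK
    have h5 := hval m hm
    have h6 : ((|F.eval ((m : ℕ) : ℤ)| : ℤ) : ℝ) ≤ Y := by exact_mod_cast h5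
    linarith)
  calc ∑ j ∈ Ioo 0 h, ∑ n ∈ Ioc n₁ K, (((Icc 1 Y).filter fun a : ℕ => ((a : ℤ) + F.eval (n : ℤ)).toNat.Prime ∧
        ((a : ℤ) + F.eval ((n + j : ℕ) : ℤ)).toNat.Prime ∧ ((a : ℤ) + F.eval ((n + h : ℕ) : ℤ)).toNat.Prime).card : ℝ)
      ≤ ∑ j ∈ Ioo 0 h, ∑ n ∈ Ioc n₁ K, C₃ * Y / Real.log Y ^ 3 * (2 * (R B (F.eval (n : ℤ)) (F.eval ((n + j : ℕ) : ℤ)) +
          R B (F.eval (n : ℤ)) (F.eval ((n + h : ℕ) : ℤ)) + R B (F.eval ((n + j : ℕ) : ℤ)) (F.eval ((n + h : ℕ) : ℤ)))) := by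
        refine sum_le_sum fun j hj => sum_le_sum fun n hn => ?_
        rw [mem_Ioo] at hj
        rw [mem_Ioc] at hn
        have e1 := (hmono n hn.1 j (by omega)).ne
        have e2 := (hmono n hn.1 h (by omega)).ne
        have e3 : F.eval ((n + j : ℕ) : ℤ) ≠ F.eval ((n + h : ℕ) : ℤ) := by
          have h7 := (hmono (n + j) (by omega) (h - j) (by omega)).ne
          rwa [show n + j + (h - j) = n + h by omega] at h7
        have h8 := h3 Y (by omega) ![F.eval (n : ℤ), F.eval ((n + j : ℕ) : ℤ), F.eval ((n + h : ℕ) : ℤ)] (inj3 e1 e2 e3) (by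
          intro i
          fin_cases i
          · exact hval n (by rw [mem_Icc]; omega)
          · exact hval (n + j) (by rw [mem_Icc]; omega)
          · exact hval (n + h) (by rw [mem_Icc]; omega))
        rw [ps3] at h8
        refine le_trans ?_ h8
        rw [Nat.cast_le]
        apply card_le_card
        intro a ha
        rw [mem_filter] at ha ⊢
        refine ⟨ha.1, fun i => ?_⟩
        fin_cases i
        · exact ha.2.1
        · exact ha.2.2.1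
        · exact ha.2.2.2
    _ = C₃ * Y / Real.log Y ^ 3 * ∑ j ∈ Ioo 0 h, ∑ n ∈ Ioc n₁ K, 2 * (R B (F.eval (n : ℤ)) (F.eval ((n + j : ℕ) : ℤ)) +
          R B (F.eval (n : ℤ)) (F.eval ((n + h : ℕ) : ℤ)) + R B (F.eval ((n + j : ℕ) : ℤ)) (F.eval ((n + h : ℕ) : ℤ))) := by
        rw [mul_sum]
        refine sum_congr rfl fun j _ => ?_
        rw [mul_sum]
    _ ≤ C₃ * Y / Real.log Y ^ 3 * (Ct * (h * K)) := by
        apply mul_le_mul_of_nonneg_left h4 (by positivity)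
    _ = _ := by ring

end Run7.h870.PQ
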