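import Pool.Agent.Run7.h870.PQ.Fi
import Pool.Agent.Run7.h870.PQ.Df

/-!
# Pairs of prime values for a positive proportion of the constant terms
-/

set_option autoImplicit false
set_option linter.all false

namespace Run7.h870.PQ

open Finset Filter Polynomial
open Pool.Agent.H646 (rat)
open Pool.Agent.H646.TuplesM (rat_ge_one rat_nonneg)
open scoped Classical

/-- the size of the values -/
theorem val_le (F : ℤ[X]) (D : ℕ) (hD : F.natDegree ≤ D) : ∃ C : ℕ, 1 ≤ C ∧ ∀ n : ℕ, 1 ≤ n → |F.eval (n : ℤ)| ≤ C * (n : ℤ) ^ D := by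
  refine ⟨∑ i ∈ range (F.natDegree + 1), (F.coeff i).natAbs + 1, by omega, fun n hn => ?_⟩
  have hn1 : (1 : ℤ) ≤ n := by exact_mod_cast hn
  have h1 : |F.eval (n : ℤ)| ≤ (∑ i ∈ range (F.natDegree + 1), |F.coeff i|) * (n : ℤ) ^ D := by
    rw [eval_eq_sum_range, sum_mul]
    refine (abs_sum_le_sum_abs _ _).trans (sum_le_sum fun i hi => ?_)
    rw [abs_mul, abs_of_nonneg (by positivity : (0 : ℤ) ≤ (n : ℤ) ^ i)]
    apply mul_le_mul_of_nonneg_left _ (abs_nonneg _)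
    apply pow_le_pow_right₀ hn1
    rw [mem_range] at hi
    omega
  refine h1.trans ?_
  push_cast
  apply mul_le_mul_of_nonneg_right _ (by positivity)
  linarith

theorem pos_ev (G : ℤ[X]) (hd : 1 ≤ G.natDegree) (hl : 1 ≤ G.leadingCoeff) : ∃ n₀ : ℕ, ∀ n : ℕ, n₀ < n → 1 ≤ G.eval (n : ℤ) := by
  obtain ⟨P, hP⟩ : ∃ P : ℝ[X], P = G.map (Int.castRingHom ℝ) := ⟨_, rfl⟩
  have hinj : Function.Injective (Int.castRingHom ℝ) := Int.cast_injective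
  have hPd : P.natDegree = G.natDegree := by rw [hP]; exact natDegree_map_eq_of_injective hinj G
  have hPl : P.leadingCoeff = ((G.leadingCoeff : ℤ) : ℝ) := by
    rw [hP, leadingCoeff_map_of_injective hinj, eq_intCast]
  have hPdeg : 0 < P.degree := natDegree_pos_iff_degree_pos.1 (by omega)
  have ht := P.tendsto_atTop_of_leadingCoeff_nonneg hPdeg (by rw [hPl]; exact_mod_cast (by omega : (0 : ℤ) ≤ G.leadingCoeff))
  have h1 := ((ht.comp (tendsto_natCast_atTop_atTop (R := ℝ))).eventually (eventually_ge_atTop 1))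
  obtain ⟨n₀, hn⟩ := eventually_atTop.1 h1
  refine ⟨n₀, fun n h => ?_⟩
  have h2 := hn n h.le
  simp only [Function.comp] at h2
  have h3 : eval ((n : ℕ) : ℝ) P = ((G.eval (n : ℤ) : ℤ) : ℝ) := by
    rw [hP]
    have h4 := eval_intCast_map (Int.castRingHom ℝ) G (n : ℤ)
    rw [Int.cast_natCast] at h4
    rw [h4, eq_intCast, Int.cast_id]
  rw [h3] at h2
  exact_mod_cast h2

theorem par (G : ℤ[X]) (hp : ∃ n : ℤ, 2 ∣ G.eval n) (n₀ K : ℕ) (hK : 3 * (n₀ + 1) ≤ K) :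
    (K : ℝ) / 3 ≤ (((Ioc n₀ K).filter fun n : ℕ => 2 ∣ G.eval (n : ℤ)).card : ℝ) := by
  obtain ⟨m, hm⟩ := hp
  have h1 : ∃ s : ℕ, s < 2 ∧ ∃ k : ℤ, ((n₀ + 1 + s : ℕ) : ℤ) - m = 2 * k := by
    by_cases h : ((n₀ : ℤ) + 1 - m) % 2 = 0
    · exact ⟨0, by norm_num, ((n₀ : ℤ) + 1 - m) / 2, by push_cast; omega⟩
    · exact ⟨1, by norm_num, ((n₀ : ℤ) + 1 + 1 - m) / 2, by push_cast; omega⟩
  obtain ⟨s, hs, k, hk⟩ := h1
  have h2 : ∀ i : ℕ, (2 : ℤ) ∣ G.eval ((n₀ + 1 + 2 * i + s : ℕ) : ℤ) := by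
    intro i
    have h2 : ((n₀ + 1 + 2 * i + s : ℕ) : ℤ) - m ∣ G.eval ((n₀ + 1 + 2 * i + s : ℕ) : ℤ) - G.eval m := Polynomial.sub_dvd_eval_sub _ _ _
    have h3 : (2 : ℤ) ∣ ((n₀ + 1 + 2 * i + s : ℕ) : ℤ) - m := ⟨k + i, by push_cast at hk ⊢; linarith⟩
    exact (dvd_sub_left hm).1 (h3.trans h2)
  have h5 : (K - n₀) / 2 ≤ ((Ioc n₀ K).filter fun n : ℕ => 2 ∣ G.eval (n : ℤ)).card := by
    have h6 : (range ((K - n₀) / 2)).card ≤ ((Ioc n₀ K).filter fun n : ℕ => 2 ∣ G.eval (n : ℤ)).card := by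
      apply card_le_card_of_injOn (fun i => n₀ + 1 + 2 * i + s)
      · intro i hi
        rw [mem_coe, mem_range] at hi
        rw [mem_coe, mem_filter, mem_Ioc]
        refine ⟨⟨?_, ?_⟩, h2 i⟩
        · show n₀ < n₀ + 1 + 2 * i + s
          omega
        · show n₀ + 1 + 2 * i + s ≤ K
          omega
      · intro a _ b _ hab
        simp only at hab
        omega
    rwa [card_range] at h6
  have h6 : K ≤ 3 * ((Ioc n₀ K).filter fun n : ℕ => 2 ∣ G.eval (n : ℤ)).card := by omega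
  rw [div_le_iff₀ (by norm_num)]
  have h7 : (K : ℝ) ≤ 3 * (((Ioc n₀ K).filter fun n : ℕ => 2 ∣ G.eval (n : ℤ)).card : ℝ) := by exact_mod_cast h6
  linarith

/-- the lower bounds for the lengths -/
theorem len {d n₀ K C : ℕ} {A L : ℝ} (hA : 0 ≤ A) (hL : (2 : ℝ) ^ d ≤ L) (hK : 3 * (n₀ + 1) ≤ K)
    (h : A * L ^ (C + 1) ≤ (K : ℝ) ^ d) : A * L ^ C ≤ ((K - n₀ : ℕ) : ℝ) ^ d := by
  have h0 : (0 : ℝ) < 2 ^ d := by positivity
  have hL0 : 0 < L := by linarith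
  have h1 : (K : ℝ) / 2 ≤ ((K - n₀ : ℕ) : ℝ) := by
    have h2 : K ≤ 2 * (K - n₀) := by omega
    have h3 : (K : ℝ) ≤ 2 * ((K - n₀ : ℕ) : ℝ) := by exact_mod_cast h2
    linarith
  have h2 : ((K : ℝ) / 2) ^ d ≤ ((K - n₀ : ℕ) : ℝ) ^ d := pow_le_pow_left₀ (by positivity) h1 d
  refine le_trans ?_ h2
  rw [div_pow, le_div_iff₀ h0]
  calc A * L ^ C * 2 ^ d ≤ A * L ^ C * L := mul_le_mul_of_nonneg_left hL (by positivity)
    _ = A * L ^ (C + 1) := by ring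
    _ ≤ _ := h

/-- **pairs of primes** -/
theorem pairs_pos (F₁ F₂ : ℤ[X]) (h1 : 1 ≤ F₁.natDegree) (h2 : 1 ≤ F₂.natDegree) (hd : 1 ≤ (F₂ - F₁).natDegree)
    (hl : 1 ≤ (F₂ - F₁).leadingCoeff) (hp : ∃ n : ℤ, 2 ∣ (F₂ - F₁).eval n) (D : ℕ) (hD1 : F₁.natDegree ≤ D) (hD2 : F₂.natDegree ≤ D) :
    ∃ c : ℝ, 0 < c ∧ ∃ C X₀ : ℕ, ∀ X K : ℕ, X₀ ≤ X → (X : ℝ) ^ (1 / 3 : ℝ) * Real.log X ^ C ≤ (K : ℝ) ^ (F₂ - F₁).natDegree →
      (K : ℝ) ^ D ≤ c * X → c * X ≤ (((Icc 1 X).filter fun a : ℕ => c * K / Real.log X ^ 2 ≤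
        (((Icc 1 K).filter fun n : ℕ => ((a : ℤ) + F₁.eval (n : ℤ)).toNat.Prime ∧
          ((a : ℤ) + F₂.eval (n : ℤ)).toNat.Prime).card : ℝ)).card : ℝ) := by
  obtain ⟨d, hdd⟩ : ∃ d, d = (F₂ - F₁).natDegree := ⟨_, rfl⟩
  obtain ⟨Λ, hΛ⟩ : ∃ Λ, Λ = F₁.leadingCoeff.natAbs + F₂.leadingCoeff.natAbs := ⟨_, rfl⟩
  obtain ⟨B, hB⟩ := core D Λ d 1 (by omega)
  obtain ⟨Ca, hCa, hav⟩ := avg d (F₂ - F₁).leadingCoeff.natAbs B
  obtain ⟨c₀, hc₀, C, X₁, hcore⟩ := hB Ca hCa.le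
  obtain ⟨C₁, hC₁, hv1⟩ := val_le F₁ D hD1
  obtain ⟨C₂, hC₂, hv2⟩ := val_le F₂ D hD2
  obtain ⟨n₀, hn₀⟩ := pos_ev (F₂ - F₁) hd hl
  obtain ⟨X₂, hbig⟩ := big d (by omega)
  have hev : ∀ᶠ Y : ℕ in atTop, ((2 : ℝ) ^ d + (F₂ - F₁).leadingCoeff + 3 * (n₀ + 1)) ≤ Real.log Y :=
    (tendsto_natCast_atTop_atTop (R := ℝ)).eventually (Real.tendsto_log_atTop.eventually_ge_atTop _)
  obtain ⟨X₃, hX₃⟩ := eventually_atTop.1 hev
  obtain ⟨c, hc⟩ : ∃ c : ℝ, c = min (1 / 96) (min c₀ (1 / (8 * ((C₁ : ℝ) + C₂)))) := ⟨_, rfl⟩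
  have hCC : (0 : ℝ) < (C₁ : ℝ) + C₂ := by
    have : (1 : ℝ) ≤ C₁ := by exact_mod_cast hC₁
    positivity
  have hc00 : 0 < c := by rw [hc]; positivity
  have hc1 : c ≤ 1 / 96 := by rw [hc]; exact min_le_left _ _
  have hc2 : c ≤ c₀ := by rw [hc]; exact (min_le_right _ _).trans (min_le_left _ _)
  have hc3 : c ≤ 1 / (8 * ((C₁ : ℝ) + C₂)) := by rw [hc]; exact (min_le_right _ _).trans (min_le_right _ _)
  refine ⟨c, hc00, C + 1, X₁ + X₂ + X₃ + 16, ?_⟩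
  intro X K hX hK hKD
  rw [← hdd] at hK
  have hX0 : (0 : ℝ) < X := by exact_mod_cast (by omega : 0 < X)
  have hL := hX₃ X (by omega)
  have hlr : (1 : ℝ) ≤ ((F₂ - F₁).leadingCoeff : ℝ) := by exact_mod_cast hl
  have h2d : (1 : ℝ) ≤ 2 ^ d := one_le_pow₀ (by norm_num)
  have hn0 : (0 : ℝ) ≤ n₀ := Nat.cast_nonneg _
  have hlog : 1 ≤ Real.log X := by linarith
  have hYK : (X : ℝ) ^ (1 / 3 : ℝ) ≤ (K : ℝ) ^ d := by
    calc (X : ℝ) ^ (1 / 3 : ℝ) = (X : ℝ) ^ (1 / 3 : ℝ) * 1 := (mul_one _).symm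
      _ ≤ (X : ℝ) ^ (1 / 3 : ℝ) * Real.log X ^ (C + 1) := by
          apply mul_le_mul_of_nonneg_left (one_le_pow₀ hlog) (by positivity)
      _ ≤ _ := hK
  obtain ⟨hK3, hlK, hxK⟩ := hbig X (by omega) K hYK
  have hKn : 3 * (n₀ + 1) ≤ K := by
    have h3 : Real.log X ≤ Real.log X ^ 2 := by nlinarith
    have h4 : (3 * ((n₀ : ℝ) + 1)) ≤ K := by linarith
    exact_mod_cast h4
  have hval : ∀ n ∈ Icc 1 K, 8 * |F₁.eval ((n : ℕ) : ℤ)| ≤ X ∧ 8 * |F₂.eval ((n : ℕ) : ℤ)| ≤ X := by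
    intro n hn
    rw [mem_Icc] at hn
    have hnK : ((n : ℝ)) ^ D ≤ (K : ℝ) ^ D := pow_le_pow_left₀ (Nat.cast_nonneg _) (by exact_mod_cast hn.2) D
    have hnn : (0 : ℝ) ≤ (n : ℝ) ^ D := by positivity
    have h3 : 8 * (((C₁ : ℝ) + C₂) * (n : ℝ) ^ D) ≤ X := by
      calc 8 * (((C₁ : ℝ) + C₂) * (n : ℝ) ^ D) ≤ 8 * (((C₁ : ℝ) + C₂) * (c * X)) := by gcongr; exact hnK.trans hKD
        _ ≤ 8 * (((C₁ : ℝ) + C₂) * (1 / (8 * ((C₁ : ℝ) + C₂)) * X)) := by gcongr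
        _ = X := by field_simp
    have c1r : (0 : ℝ) ≤ C₁ := Nat.cast_nonneg _
    have c2r : (0 : ℝ) ≤ C₂ := Nat.cast_nonneg _
    constructor
    · have h4 := hv1 n hn.1
      have h5 : ((|F₁.eval ((n : ℕ) : ℤ)| : ℤ) : ℝ) ≤ C₁ * (n : ℝ) ^ D := by exact_mod_cast h4
      have h6 : 8 * ((|F₁.eval ((n : ℕ) : ℤ)| : ℤ) : ℝ) ≤ X := by nlinarith
      exact_mod_cast h6
    · have h4 := hv2 n hn.1
      have h5 : ((|F₂.eval ((n : ℕ) : ℤ)| : ℤ) : ℝ) ≤ C₂ * (n : ℝ) ^ D := by exact_mod_cast h4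
      have h6 : 8 * ((|F₂.eval ((n : ℕ) : ℤ)| : ℤ) : ℝ) ≤ X := by nlinarith
      exact_mod_cast h6
  have hIoc : ∀ n : ℕ, n ∈ Ioc n₀ K → n ∈ Icc 1 K := fun n hn => by
    rw [mem_Ioc] at hn
    rw [mem_Icc]
    omega
  have hR : ∑ n ∈ NN F₁ F₂ K, R B (F₁.eval (n : ℤ)) (F₂.eval (n : ℤ)) ≤ Ca * K := by
    have h3 := hav K hK3 (F₂ - F₁) hdd.ge (by omega) le_rfl (by
      intro n hn
      obtain ⟨h4, h5⟩ := hval n hn
      refine le_trans ?_ hxK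
      have h6 : ((F₂ - F₁).eval ((n : ℕ) : ℤ)).natAbs ≤ 2 * X := by
        rw [eval_sub]
        have b1 := neg_abs_le (F₁.eval ((n : ℕ) : ℤ))
        have b2 := le_abs_self (F₁.eval ((n : ℕ) : ℤ))
        have b3 := neg_abs_le (F₂.eval ((n : ℕ) : ℤ))
        have b4 := le_abs_self (F₂.eval ((n : ℕ) : ℤ))
        omega
      exact_mod_cast h6)
    refine le_trans (le_of_eq ?_) h3
    apply sum_congr
    · ext n
      unfold NN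
      rw [mem_filter, mem_filter, eval_sub, sub_ne_zero]
      exact ⟨fun h => ⟨h.1, h.2.symm⟩, fun h => ⟨h.1, h.2.symm⟩⟩
    · intro n _
      unfold R
      rw [eval_sub]
  have hres := hcore X (by omega) F₁ F₂ n₀ K ⟨h1, hD1, by omega, fun n hn => by
      have := (hval n hn).1
      have := abs_nonneg (F₁.eval ((n : ℕ) : ℤ))
      omega⟩ ⟨h2, hD2, by omega, fun n hn => by
      have := (hval n hn).2
      have := abs_nonneg (F₂.eval ((n : ℕ) : ℤ))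
      omega⟩ hdd.symm hl (by rw [pow_one]; linarith) (len (by positivity) (by linarith) hKn hK)
    (fun n hn => ⟨hn₀ n (mem_Ioc.1 hn).1, hval n (hIoc n hn)⟩) (par _ hp n₀ K hKn) hR
    (fun a => (pp F₁ F₂ n₀ K a : ℝ)) (fun a _ => ⟨Nat.cast_nonneg _, le_rfl⟩) (by
      have : 0 ≤ (K : ℝ) * X / (48 * Real.log X ^ 2) := by positivity
      linarith)
  have hcX : c * X ≤ c₀ * X := mul_le_mul_of_nonneg_right hc2 hX0.le
  refine hcX.trans (hres.trans ?_)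
  rw [Nat.cast_le]
  apply card_le_card
  intro a ha
  rw [mem_filter] at ha ⊢
  refine ⟨ha.1, ?_⟩
  have h3 : c * K / Real.log X ^ 2 ≤ (K : ℝ) / (96 * Real.log X ^ 2) := by
    calc c * K / Real.log X ^ 2 ≤ 1 / 96 * K / Real.log X ^ 2 := by gcongr
      _ = _ := by field_simp
  refine h3.trans (ha.2.trans ?_)
  rw [Nat.cast_le]
  unfold pp
  apply card_le_card
  intro n hn
  rw [mem_filter] at hn ⊢
  exact ⟨hIoc n hn.1, hn.2⟩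

end Run7.h870.PQ
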