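import Pool.Agent.Run7.h870.PQ.Av

/-!
# The upper bound sieve for shifted values of two polynomials, and the second moment
-/

set_option autoImplicit false
set_option linter.all false

namespace Run7.h870.PQ

open Finset Filter Polynomial
open Pool.Agent.H646 (rat)
open Pool.Agent.H646.TuplesM (tuple_bound rat_ge_one rat_nonneg prod_le_sum_pow)
open scoped Classical

/-- the sum over the pairs -/
noncomputable def ps {k : ℕ} (B : ℕ) (v : Fin k → ℤ) : ℝ := ∑ i, ∑ j, if i = j then 0 else rat (v j - v i).natAbs ^ B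

theorem ps_comp {k : ℕ} (B : ℕ) (v : Fin k → ℤ) (σ : Equiv.Perm (Fin k)) : ps B (fun j => v (σ j)) = ps B v := by
  unfold ps
  rw [← Equiv.sum_comp σ (fun i => ∑ j, if i = j then 0 else rat (v j - v i).natAbs ^ B)]
  refine sum_congr rfl fun i _ => ?_
  rw [← Equiv.sum_comp σ (fun j => if σ i = j then 0 else rat (v j - v (σ i)).natAbs ^ B)]
  refine sum_congr rfl fun j _ => ?_
  simp only [σ.injective.eq_iff]

theorem up_inj (k : ℕ) (hk : 2 ≤ k) : ∃ C : ℝ, 0 < C ∧ ∃ B x₀ : ℕ, ∀ x : ℕ, x₀ ≤ x → ∀ v : Fin k → ℤ,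
    Function.Injective v → (∀ j, |v j| ≤ x) →
    (((Icc 1 x).filter fun a : ℕ => ∀ j, ((a : ℤ) + v j).toNat.Prime).card : ℝ) ≤
      C * x / Real.log x ^ k * ps B v := by
  obtain ⟨C, hC, A, x₀, hb⟩ := tuple_bound k (by omega)
  set Q : Finset (Fin k × Fin k) := (univ : Finset (Fin k × Fin k)).filter (fun q => q.1 < q.2) with hQ
  have hQne : Q.Nonempty := ⟨(⟨0, by omega⟩, ⟨1, by omega⟩), by rw [hQ, mem_filter]; exact ⟨mem_univ _, by
    rw [Fin.lt_def]; simp⟩⟩
  refine ⟨2 * C, by positivity, A * #Q, max x₀ 3, ?_⟩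
  intro x hx v hv hvx
  have hx0 : x₀ ≤ 2 * x := by have := le_trans (le_max_left _ _) hx; omega
  have hx3 : 3 ≤ x := le_trans (le_max_right _ _) hx
  have hxr : (3 : ℝ) ≤ x := by exact_mod_cast hx3
  set σ := Tuple.sort v with hσ
  obtain ⟨w, hw⟩ : ∃ w : Fin k → ℤ, w = fun j => v (σ j) := ⟨_, rfl⟩
  have hwm : StrictMono w := by
    rw [hw]
    exact (Tuple.monotone_sort v).strictMono_of_injective (hv.comp σ.injective)
  obtain ⟨o, ho⟩ : ∃ o : Fin k, o = ⟨0, by omega⟩ := ⟨_, rfl⟩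
  have hoj : ∀ j, w o ≤ w j := fun j => hwm.monotone (by rw [ho, Fin.le_def]; exact Nat.zero_le _)
  obtain ⟨d, hd⟩ : ∃ d : Fin k → ℕ, d = fun j => (w j - w o).toNat := ⟨_, rfl⟩
  have hdm : StrictMono d := by
    intro i j hij
    rw [hd]
    have h1 := hwm hij
    have h2 := hoj i
    simp only
    omega
  have h1 := hb (2 * x) hx0 d hdm
  have hcount : (((Icc 1 x).filter fun a : ℕ => ∀ j, ((a : ℤ) + v j).toNat.Prime).card : ℝ) ≤
      (#{n ∈ Icc 1 (2 * x) | ∀ j, (n + d j).Prime} : ℝ) := by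
    rw [Nat.cast_le]
    have hkey : ∀ a : ℕ, (∀ j, ((a : ℤ) + v j).toNat.Prime) → 2 ≤ (a : ℤ) + w o ∧ ∀ j, ((a : ℤ) + w o).toNat + d j = ((a : ℤ) + w j).toNat := by
      intro a ha
      have h2 : ((a : ℤ) + w o).toNat.Prime := by rw [hw]; exact ha _
      have h3 := h2.two_le
      refine ⟨by omega, fun j => ?_⟩
      rw [hd]
      have := hoj j
      simp only
      omega
    apply card_le_card_of_injOn (fun a : ℕ => ((a : ℤ) + w o).toNat)
    · intro a ha
      rw [mem_coe, mem_filter, mem_Icc] at ha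
      obtain ⟨h2, h3⟩ := hkey a ha.2
      rw [mem_coe, mem_filter, mem_Icc]
      have h4 := hvx (σ o)
      have h5 : w o = v (σ o) := by rw [hw]
      rw [← h5] at h4
      have h6 := (abs_le.1 h4).2
      refine ⟨⟨?_, ?_⟩, fun j => ?_⟩
      · show 1 ≤ ((a : ℤ) + w o).toNat
        omega
      · show ((a : ℤ) + w o).toNat ≤ 2 * x
        have h7 : (a : ℤ) ≤ x := by exact_mod_cast ha.1.2
        omega
      · show (((a : ℤ) + w o).toNat + d j).Prime
        rw [h3 j, hw]
        exact ha.2 _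
    · intro a ha b hb hab
      rw [mem_coe, mem_filter] at ha hb
      have h2 := (hkey a ha.2).1
      have h3 := (hkey b hb.2).1
      simp only at hab
      omega
  refine hcount.trans (h1.trans ?_)
  have hlog1 : 1 ≤ Real.log x := by
    rw [Real.le_log_iff_exp_le (by linarith)]
    linarith [Real.exp_one_lt_d9]
  have hlog2 : Real.log x ≤ Real.log ((2 * x : ℕ) : ℝ) := by
    apply Real.log_le_log (by linarith)
    push_cast
    linarith
  have hr1 : ∀ q ∈ Q, 1 ≤ rat (d q.2 - d q.1) ^ A := fun q hq => by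
    have h2 := hdm (mem_filter.mp hq).2
    exact one_le_pow₀ (rat_ge_one (by omega))
  have h2 := prod_le_sum_pow Q (fun q => rat (d q.2 - d q.1) ^ A) hr1 hQne
  have h3 : ∑ q ∈ Q, (rat (d q.2 - d q.1) ^ A) ^ #Q ≤ ps (A * #Q) w := by
    unfold ps
    rw [← Fintype.sum_prod_type' (f := fun i j => if i = j then (0 : ℝ) else rat (w j - w i).natAbs ^ (A * #Q))]
    have h3a : ∑ q ∈ Q, (if q.1 = q.2 then (0 : ℝ) else rat (w q.2 - w q.1).natAbs ^ (A * #Q)) ≤
        ∑ q : Fin k × Fin k, (if q.1 = q.2 then (0 : ℝ) else rat (w q.2 - w q.1).natAbs ^ (A * #Q)) := by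
      apply sum_le_sum_of_subset_of_nonneg (subset_univ Q)
      intro q _ _
      split_ifs
      · exact le_rfl
      · exact pow_nonneg (rat_nonneg _) _
    refine le_trans (le_of_eq ?_) h3a
    refine sum_congr rfl fun q hq => ?_
    have h4 : q.1 < q.2 := (mem_filter.mp hq).2
    rw [if_neg h4.ne, pow_mul]
    have h5 : d q.2 - d q.1 = (w q.2 - w q.1).natAbs := by
      rw [hd]
      have := hwm h4
      have := hoj q.1
      simp only
      omega
    rw [h5]
  have h4 : ps (A * #Q) w = ps (A * #Q) v := by rw [hw]; exact ps_comp _ v σ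
  have h5 : 0 ≤ ps (A * #Q) v := by
    unfold ps
    refine sum_nonneg fun i _ => sum_nonneg fun j _ => ?_
    split_ifs
    · exact le_rfl
    · exact pow_nonneg (rat_nonneg _) _
  calc C * ((2 * x : ℕ) : ℝ) / Real.log ((2 * x : ℕ) : ℝ) ^ k *
        ∏ q ∈ (univ : Finset (Fin k × Fin k)) with q.1 < q.2, rat (d q.2 - d q.1) ^ A
      ≤ C * ((2 * x : ℕ) : ℝ) / Real.log ((2 * x : ℕ) : ℝ) ^ k * ps (A * #Q) v := by
        apply mul_le_mul_of_nonneg_left ((h2.trans h3).trans (le_of_eq h4))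
        have : 0 ≤ Real.log ((2 * x : ℕ) : ℝ) := by linarith
        positivity
    _ ≤ 2 * C * x / Real.log x ^ k * ps (A * #Q) v := by
        apply mul_le_mul_of_nonneg_right _ h5
        have e : C * ((2 * x : ℕ) : ℝ) = 2 * C * x := by push_cast; ring
        rw [e]
        apply div_le_div_of_nonneg_left (by positivity) (by positivity)
        exact pow_le_pow_left₀ (by linarith) hlog2 k

end Run7.h870.PQ
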